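import Mathlib

/-!
# MP_70614a_al : Frattini subgroups and global dimension of subgroup-lattice incidence algebras

We disprove the statement: for the group `G = F_11^2 ⋊ Q_24` (`Q_24` the generalised quaternion
group of order `24`, acting fixed-point-freely as a subgroup of `SL_2(11)`), with `Z` the subgroup
of order two of a complement, `Ext^4(S_G, S_Z) ≠ 0`, while `Ext^n(S_H, S_{Φ H}) = 0` for all `n ≥ 4`
and all subgroups `H`.

Left modules over the incidence algebra are presheaves on the poset; `Mo B` is the module of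
functions supported on an order-convex set `B`, so that `Mo (cS H)` is the simple module and
`Mo (cIic H)` its projective cover. All computations use the long exact sequences for
`0 → Mo A → Mo B → Mo (B \ A) → 0`, `A` a lower set in `B`.
-/

set_option linter.unusedSectionVars false
set_option linter.unusedVariables false
set_option linter.unusedSimpArgs false
set_option maxRecDepth 1000000

namespace Pool.Agent.Results.MP_70614a_al.GlobalDimension

open CategoryTheory CategoryTheory.Abelian QuaternionGroup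

section PartA
open scoped Classical


/-! ### Generic lemmas on Ext -/
section Generic
variable {R : Type} [Ring R]
variable {S : ShortComplex (ModuleCat.{0} R)} (hS : S.ShortExact) (Y : ModuleCat.{0} R)

include hS in
lemma van2 (n : ℕ) (h1 : Subsingleton (Ext S.X₁ Y n)) (h3 : Subsingleton (Ext S.X₃ Y n)) :
    Subsingleton (Ext S.X₂ Y n) := by
  refine subsingleton_of_forall_eq 0 fun x => ?_
  obtain ⟨y, hy⟩ := Ext.contravariant_sequence_exact₂ hS Y x (h1.elim _ _)
  rw [← hy, h3.elim y 0, Ext.comp_zero]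

include hS in
lemma van3 (n : ℕ) (h1 : Subsingleton (Ext S.X₁ Y n)) (h2 : Subsingleton (Ext S.X₂ Y (n+1))) :
    Subsingleton (Ext S.X₃ Y (n+1)) := by
  refine subsingleton_of_forall_eq 0 fun x => ?_
  obtain ⟨y, hy⟩ := Ext.contravariant_sequence_exact₃ hS Y x (h2.elim _ _) (n₀ := n) (add_comm _ _)
  rw [← hy, h1.elim y 0, Ext.comp_zero]

include hS in
lemma van3_zero (h2 : Subsingleton (Ext S.X₂ Y 0)) :
    Subsingleton (Ext S.X₃ Y 0) := by
  refine subsingleton_of_forall_eq 0 fun x => ?_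
  have := hS.epi_g
  have := Ext.precomp_mk₀_injective_of_epi Y S.g
  exact this (h2.elim _ _)

include hS in
lemma non2 (n : ℕ) (h1 : Subsingleton (Ext S.X₁ Y n)) (h3 : Nontrivial (Ext S.X₃ Y (n+1))) :
    Nontrivial (Ext S.X₂ Y (n+1)) := by
  by_contra hcon
  rw [not_nontrivial_iff_subsingleton] at hcon
  have := van3 hS Y n h1 hcon
  exact not_subsingleton _ this

include hS in
lemma non3 (n : ℕ) (h2 : Subsingleton (Ext S.X₂ Y n)) (h1 : Nontrivial (Ext S.X₁ Y n)) :
    Nontrivial (Ext S.X₃ Y (n+1)) := by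
  by_contra hcon
  rw [not_nontrivial_iff_subsingleton] at hcon
  have : Subsingleton (Ext S.X₁ Y n) := by
    refine subsingleton_of_forall_eq 0 fun x => ?_
    obtain ⟨y, hy⟩ := Ext.contravariant_sequence_exact₁ hS Y x (n₁ := n+1) (add_comm _ _)
      (hcon.elim _ _)
    rw [← hy, h2.elim y 0, Ext.comp_zero]
  exact not_subsingleton _ this

lemma retract_non {A B : ModuleCat.{0} R} (i : A ⟶ B) (p : B ⟶ A) (h : i ≫ p = 𝟙 A) (n : ℕ)
    (hA : Nontrivial (Ext A Y n)) : Nontrivial (Ext B Y n) := by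
  by_contra hcon
  rw [not_nontrivial_iff_subsingleton] at hcon
  have : Subsingleton (Ext A Y n) := by
    refine subsingleton_of_forall_eq 0 fun x => ?_
    have h1 : (Ext.mk₀ p).comp x (zero_add n) = 0 := hcon.elim _ _
    have h2 : (Ext.mk₀ i).comp ((Ext.mk₀ p).comp x (zero_add n)) (zero_add n) = x := by
      rw [Ext.mk₀_comp_mk₀_assoc, h, Ext.mk₀_id_comp]
    rw [← h2, h1, Ext.comp_zero]
  exact not_subsingleton _ this

lemma iso_sub {A B : ModuleCat.{0} R} (e : A ≅ B) (n : ℕ)
    (hA : Subsingleton (Ext A Y n)) : Subsingleton (Ext B Y n) := by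
  by_contra hcon
  rw [not_subsingleton_iff_nontrivial] at hcon
  have := retract_non Y e.inv e.hom e.inv_hom_id n hcon
  exact not_subsingleton _ hA

lemma iso_sub_right {A : ModuleCat.{0} R} {Y Z : ModuleCat.{0} R} (e : Y ≅ Z) (n : ℕ)
    (hA : Subsingleton (Ext A Y n)) : Subsingleton (Ext A Z n) := by
  refine subsingleton_of_forall_eq 0 fun x => ?_
  have h1 : x.comp (Ext.mk₀ e.inv) (add_zero n) = 0 := hA.elim _ _
  have h2 : (x.comp (Ext.mk₀ e.inv) (add_zero n)).comp (Ext.mk₀ e.hom) (add_zero n) = x := by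
    rw [Ext.comp_assoc_of_third_deg_zero, Ext.mk₀_comp_mk₀, e.inv_hom_id, Ext.comp_mk₀_id]
  rw [← h2, h1, Ext.zero_comp]

end Generic

/-! ### Modules over the incidence algebra -/
section Modules

variable {L : Type} [PartialOrder L] [Fintype L] [LocallyFiniteOrder L] [DecidableEq L]

/-- The incidence algebra over `ℚ`. -/
abbrev IA (L : Type) [PartialOrder L] [LocallyFiniteOrder L] [DecidableEq L] : Type :=
  IncidenceAlgebra ℚ L

/-- order-convex subsets -/
abbrev Cv (L : Type) [PartialOrder L] : Type := {B : Set L // B.OrdConnected}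

/-- functions supported on a convex set -/
@[ext] structure Car (B : Cv L) where
  /-- the values -/
  val : L → ℚ
  prop : ∀ K, K ∉ B.1 → val K = 0

namespace Car

variable {B : Cv L}

omit [Fintype L] [LocallyFiniteOrder L] [DecidableEq L] in
lemma ext' {v w : Car B} (h : ∀ K, v.val K = w.val K) : v = w :=
  Car.ext (funext h)

instance : Add (Car B) := ⟨fun v w => ⟨fun K => v.val K + w.val K, fun K hK => by
  rw [v.prop K hK, w.prop K hK, add_zero]⟩⟩
instance : Zero (Car B) := ⟨⟨fun _ => 0, fun _ _ => rfl⟩⟩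
instance : Neg (Car B) := ⟨fun v => ⟨fun K => - v.val K, fun K hK => by
  rw [v.prop K hK, neg_zero]⟩⟩

instance : AddCommGroup (Car B) where
  nsmul := nsmulRec
  zsmul := zsmulRec
  add_assoc u v w := ext' fun K => add_assoc _ _ _
  zero_add v := ext' fun K => zero_add _
  add_zero v := ext' fun K => add_zero _
  neg_add_cancel v := ext' fun K => neg_add_cancel _
  add_comm v w := ext' fun K => add_comm _ _

omit [Fintype L] [LocallyFiniteOrder L] [DecidableEq L] in
@[simp] lemma add_val (v w : Car B) (K : L) : (v + w).val K = v.val K + w.val K := rfl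
omit [Fintype L] [LocallyFiniteOrder L] [DecidableEq L] in
@[simp] lemma zero_val (K : L) : (0 : Car B).val K = 0 := rfl

noncomputable instance : SMul (IA L) (Car B) where
  smul f v := ⟨fun K => if K ∈ B.1 then ∑ H, f K H * v.val H else 0, fun K hK => if_neg hK⟩

lemma smul_val (f : IA L) (v : Car B) (K : L) :
    (f • v).val K = if K ∈ B.1 then ∑ H, f K H * v.val H else 0 := rfl

noncomputable instance : Module (IA L) (Car B) where
  one_smul v := by
    refine Car.ext' fun K => ?_
    rw [smul_val]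
    split_ifs with h
    · simp [IncidenceAlgebra.one_apply]
    · rw [v.prop K h]
  mul_smul f g v := by
    refine Car.ext' fun K => ?_
    rw [smul_val, smul_val]
    split_ifs with h
    · simp only [smul_val, IncidenceAlgebra.mul_apply, Finset.sum_mul, Finset.mul_sum]
      rw [show (∑ H, ∑ X ∈ Finset.Icc K H, f K X * g X H * v.val H)
        = ∑ H, ∑ X, f K X * (if X ∈ B.1 then g X H * v.val H else 0) from ?_]
      · rw [Finset.sum_comm]
        refine Finset.sum_congr rfl fun X _ => ?_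
        split_ifs with hX
        · rw [Finset.mul_sum]
        · simp
      refine Finset.sum_congr rfl fun H _ => ?_
      by_cases hH : H ∈ B.1
      · rw [← Finset.sum_subset (Finset.subset_univ (Finset.Icc K H))]
        · refine Finset.sum_congr rfl fun X hX => ?_
          rw [Finset.mem_Icc] at hX
          rw [if_pos (B.2.out h hH hX)]
          ring
        · intro X _ hX
          rw [Finset.mem_Icc, not_and_or] at hX
          rcases hX with hX | hX
          · rw [f.apply_eq_zero_of_not_le hX, zero_mul]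
          · rw [g.apply_eq_zero_of_not_le hX, zero_mul, ite_self, mul_zero]
      · rw [v.prop H hH]
        simp
    · rfl
  smul_zero f := by
    refine Car.ext' fun K => ?_
    rw [smul_val]
    simp
  smul_add f v w := by
    refine Car.ext' fun K => ?_
    rw [smul_val, add_val, smul_val, smul_val]
    split_ifs with h
    · rw [← Finset.sum_add_distrib]
      refine Finset.sum_congr rfl fun H _ => ?_
      rw [add_val]; ring
    · simp
  add_smul f g v := by
    refine Car.ext' fun K => ?_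
    rw [smul_val, add_val, smul_val, smul_val]
    split_ifs with h
    · rw [← Finset.sum_add_distrib]
      refine Finset.sum_congr rfl fun H _ => ?_
      rw [IncidenceAlgebra.add_apply]; ring
    · simp
  zero_smul v := by
    refine Car.ext' fun K => ?_
    rw [smul_val]
    simp

end Car

/-- underlying function of the restriction map -/
noncomputable def resFun (B C : Cv L) (v : Car B) : Car C :=
  ⟨fun K => if K ∈ C.1 then v.val K else 0, fun K hK => if_neg hK⟩

omit [Fintype L] [LocallyFiniteOrder L] [DecidableEq L] in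
lemma resFun_val {B C : Cv L} (v : Car B) (K : L) :
    (resFun B C v).val K = if K ∈ C.1 then v.val K else 0 := rfl

omit [Fintype L] [LocallyFiniteOrder L] [DecidableEq L] in
lemma resFun_inj {A B : Cv L} (hAB : A.1 ⊆ B.1) {v w : Car A} (h : resFun A B v = resFun A B w) :
    v = w := by
  refine Car.ext' fun K => ?_
  have h2 : (resFun A B v).val K = (resFun A B w).val K := by rw [h]
  rw [resFun_val, resFun_val] at h2
  by_cases hB : K ∈ B.1
  · rwa [if_pos hB, if_pos hB] at h2
  · rw [v.prop K (fun h => hB (hAB h)), w.prop K (fun h => hB (hAB h))]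

omit [Fintype L] [LocallyFiniteOrder L] [DecidableEq L] in
lemma resFun_surj {B C : Cv L} (hC : C.1 ⊆ B.1) (w : Car C) : resFun B C (resFun C B w) = w := by
  refine Car.ext' fun K => ?_
  rw [resFun_val, resFun_val]
  by_cases hK : K ∈ C.1
  · rw [if_pos hK, if_pos (hC hK)]
  · rw [if_neg hK, w.prop K hK]

omit [Fintype L] [LocallyFiniteOrder L] [DecidableEq L] in
lemma resFun_exact {A B C : Cv L} (hC : ∀ x, x ∈ C.1 ↔ x ∈ B.1 ∧ x ∉ A.1) (v : Car B)
    (hv : resFun B C v = 0) : resFun A B (resFun B A v) = v := by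
  refine Car.ext' fun K => ?_
  rw [resFun_val, resFun_val]
  by_cases hB : K ∈ B.1
  · rw [if_pos hB]
    split_ifs with hA
    · rfl
    · have h2 : (resFun B C v).val K = (0 : Car C).val K := by rw [hv]
      rw [resFun_val, if_pos ((hC K).2 ⟨hB, hA⟩)] at h2
      exact h2.symm
  · rw [if_neg hB, v.prop K hB]

/-- restriction map -/
noncomputable def res (B C : Cv L)
    (h1 : ∀ K ∈ B.1, K ∈ C.1 → ∀ H ∈ B.1, K ≤ H → H ∈ C.1)
    (h2 : ∀ H ∈ B.1, H ∈ C.1 → ∀ K ∈ C.1, K ≤ H → K ∈ B.1) : Car B →ₗ[IA L] Car C where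
  toFun v := resFun B C v
  map_add' v w := by
    refine Car.ext' fun K => ?_
    rw [Car.add_val, resFun_val, resFun_val, resFun_val, Car.add_val]
    split_ifs <;> simp
  map_smul' f v := by
    refine Car.ext' fun K => ?_
    rw [RingHom.id_apply, resFun_val, Car.smul_val, Car.smul_val]
    split_ifs with hC hB hB
    · refine Finset.sum_congr rfl fun H _ => ?_
      rw [resFun_val]
      by_cases hKH : K ≤ H
      · by_cases hH : H ∈ B.1
        · rw [if_pos (h1 K hB hC H hH hKH)]
        · rw [v.prop H hH, ite_self]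
      · rw [f.apply_eq_zero_of_not_le hKH, zero_mul, zero_mul]
    · symm
      refine Finset.sum_eq_zero fun H _ => ?_
      rw [resFun_val]
      by_cases hKH : K ≤ H
      · split_ifs with hHC
        · by_cases hH : H ∈ B.1
          · exact absurd (h2 H hH hHC K hC hKH) hB
          · rw [v.prop H hH, mul_zero]
        · rw [mul_zero]
      · rw [f.apply_eq_zero_of_not_le hKH, zero_mul]
    · rfl

lemma res_val {B C : Cv L} {h1 : ∀ K ∈ B.1, K ∈ C.1 → ∀ H ∈ B.1, K ≤ H → H ∈ C.1}
    {h2 : ∀ H ∈ B.1, H ∈ C.1 → ∀ K ∈ C.1, K ≤ H → K ∈ B.1} (v : Car B) (K : L) :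
    (res B C h1 h2 v).val K = if K ∈ C.1 then v.val K else 0 := rfl

/-- module attached to convex set -/
noncomputable abbrev Mo (B : Cv L) : ModuleCat.{0} (IA L) := ModuleCat.of (IA L) (Car B)

/-- short exact sequence: `A` lower in `B`, `C` the complement. -/
noncomputable def ses (A B C : Cv L) (hAB : A.1 ⊆ B.1)
    (hlow : ∀ H ∈ A.1, ∀ K ∈ B.1, K ≤ H → K ∈ A.1)
    (hC : ∀ x, x ∈ C.1 ↔ x ∈ B.1 ∧ x ∉ A.1) : ShortComplex (ModuleCat.{0} (IA L)) :=
  ShortComplex.mk
    (ModuleCat.ofHom (res A B (fun _ _ _ H hH _ => hAB hH) (fun H hH _ K hK hKH => hlow H hH K hK hKH)))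
    (ModuleCat.ofHom (res B C
      (fun K _ hKC H hHB hKH => (hC H).2 ⟨hHB, fun hHA => ((hC K).1 hKC).2 (hlow H hHA K ((hC K).1 hKC).1 hKH)⟩)
      (fun H _ _ K hK _ => ((hC K).1 hK).1)))
    (by
      refine ModuleCat.hom_ext (LinearMap.ext fun v => Car.ext' fun K => ?_)
      change (resFun B C (resFun A B v)).val K = 0
      rw [resFun_val, resFun_val]
      split_ifs with h1 h2
      · exact v.prop K ((hC K).1 h1).2
      · rfl
      · rfl)

lemma ses_exact (A B C : Cv L) (hAB : A.1 ⊆ B.1)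
    (hlow : ∀ H ∈ A.1, ∀ K ∈ B.1, K ≤ H → K ∈ A.1)
    (hC : ∀ x, x ∈ C.1 ↔ x ∈ B.1 ∧ x ∉ A.1) : (ses A B C hAB hlow hC).ShortExact where
  exact := by
    rw [ShortComplex.moduleCat_exact_iff]
    intro v hv
    exact ⟨resFun B A v, resFun_exact hC v hv⟩
  mono_f := by
    rw [ModuleCat.mono_iff_injective]
    intro v w h
    exact resFun_inj hAB h
  epi_g := by
    rw [ModuleCat.epi_iff_surjective]
    intro w
    exact ⟨resFun C B w, resFun_surj (fun K hK => ((hC K).1 hK).1) w⟩

/-! projectives -/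

/-- principal lower set -/
def cIic (x : L) : Cv L := ⟨Set.Iic x, Set.ordConnected_Iic⟩
/-- strict lower set -/
def cIio (x : L) : Cv L := ⟨Set.Iio x, Set.ordConnected_Iio⟩
/-- singleton -/
def cS (x : L) : Cv L := ⟨{x}, Set.ordConnected_singleton⟩

/-- the splitting -/
noncomputable def sp (x : L) : Car (cIic x) →ₗ[IA L] IA L where
  toFun v := ⟨fun a b => if b = x then v.val a else 0, fun a b hab => by
    split_ifs with h
    · subst h
      exact v.prop a hab
    · rfl⟩
  map_add' v w := by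
    refine IncidenceAlgebra.ext fun a b hab => ?_
    change (if b = x then (v+w).val a else 0) = (if b = x then v.val a else 0) + (if b = x then w.val a else 0)
    split_ifs <;> simp
  map_smul' f v := by
    refine IncidenceAlgebra.ext fun a b hab => ?_
    rw [RingHom.id_apply, smul_eq_mul, IncidenceAlgebra.mul_apply]
    change (if b = x then (f • v).val a else 0) = ∑ y ∈ Finset.Icc a b, f a y * (if b = x then v.val y else 0)
    split_ifs with h
    · subst h
      rw [Car.smul_val, if_pos (show a ∈ (cIic b).1 from hab)]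
      rw [← Finset.sum_subset (Finset.subset_univ (Finset.Icc a b))]
      intro X _ hX
      rw [Finset.mem_Icc, not_and_or] at hX
      rcases hX with hX | hX
      · rw [f.apply_eq_zero_of_not_le hX, zero_mul]
      · rw [v.prop X hX, mul_zero]
    · simp

/-- generator -/
noncomputable def gen (x : L) : Car (cIic x) := ⟨fun a => if a = x then 1 else 0, fun K hK => by
  rw [if_neg]; rintro rfl; exact hK (le_refl K)⟩

lemma sp_gen (x : L) (v : Car (cIic x)) : sp x v • gen x = v := by
  refine Car.ext' fun K => ?_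
  rw [Car.smul_val]
  by_cases hK : K ∈ (cIic x).1
  · rw [if_pos hK]
    rw [Finset.sum_eq_single x]
    · change (if x = x then v.val K else 0) * (if x = x then 1 else 0) = _
      simp
    · intro b _ hb
      change _ * (if b = x then 1 else 0) = _
      rw [if_neg hb, mul_zero]
    · intro h; exact absurd (Finset.mem_univ x) h
  · rw [if_neg hK, v.prop K hK]

instance projIic (x : L) : Projective (Mo (cIic x)) := by
  have : Module.Projective (IA L) (Car (cIic x)) :=
    Module.Projective.of_split (sp x) (LinearMap.toSpanSingleton (IA L) _ (gen x)) (by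
      ext v
      simp [sp_gen])
  exact (IsProjective.iff_projective (Car (cIic x))).1 this

/-- the one-dimensional simple module concentrated at `H`: the space `ℚ`, on which an element
`f` of the incidence algebra acts as multiplication by `f H H`. -/
def Smp (H : L) : Type := ℚ

noncomputable instance (H : L) : AddCommGroup (Smp H) := inferInstanceAs (AddCommGroup ℚ)

/-- evaluation `f ↦ f H H`, a ring homomorphism -/
noncomputable def ev (H : L) : IA L →+* ℚ where
  toFun f := f H H
  map_one' := by rw [IncidenceAlgebra.one_apply, if_pos rfl]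
  map_mul' f g := by rw [IncidenceAlgebra.mul_apply, Finset.Icc_self, Finset.sum_singleton]
  map_zero' := rfl
  map_add' f g := rfl

noncomputable instance (H : L) : Module (IA L) (Smp H) :=
  show Module (IA L) ℚ from Module.compHom ℚ (ev H)

lemma Smp.smul_def (H : L) (f : IA L) (q : Smp H) : f • q = (f H H * (show ℚ from q) : ℚ) := rfl

/-- the simple module as an object -/
noncomputable abbrev S (H : L) : ModuleCat.{0} (IA L) := ModuleCat.of (IA L) (Smp H)

/-- underlying linear map -/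
noncomputable def toS (H : L) : Car (cS H) →ₗ[IA L] Smp H where
  toFun v := v.val H
  map_add' v w := rfl
  map_smul' f v := by
    change (f • v).val H = f H H * v.val H
    rw [Car.smul_val, if_pos (show H ∈ (cS H).1 from rfl), Finset.sum_eq_single H]
    · intro b _ hb
      rw [v.prop b hb, mul_zero]
    · intro h; exact absurd (Finset.mem_univ H) h

lemma toS_bij (H : L) : Function.Bijective (toS H) := by
  constructor
  · intro v w h
    refine Car.ext' fun K => ?_
    by_cases hK : K = H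
    · subst hK; exact h
    · rw [v.prop K hK, w.prop K hK]
  · intro q
    refine ⟨⟨fun K => if K = H then (show ℚ from q) else 0, fun K hK => if_neg hK⟩, ?_⟩
    change (if H = H then (show ℚ from q) else 0) = q
    rw [if_pos rfl]

/-- iso with module attached to singleton -/
noncomputable def isoS (H : L) : Mo (cS H) ≅ S H :=
  (LinearEquiv.ofBijective (toS H) (toS_bij H)).toModuleIso

/-! Hom vanishing from the projectives -/

lemma ext0_Iic {x K : L} (h : x ≠ K) : Subsingleton (Ext (Mo (cIic x)) (Mo (cS K)) 0) := by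
  have : Subsingleton (Mo (cIic x) ⟶ Mo (cS K)) := by
    refine subsingleton_of_forall_eq 0 fun φ => ?_
    refine ModuleCat.hom_ext (LinearMap.ext fun v => ?_)
    change φ.hom v = (0 : Car (cS K))
    have h1 : φ.hom v = (sp x v) • φ.hom (gen x) := by
      rw [← map_smul]
      congr 1
      exact (sp_gen x v).symm
    rw [h1]
    refine Car.ext' fun H => ?_
    rw [Car.smul_val]
    split_ifs with hH
    · have hH' : H = K := hH
      subst hH'
      rw [Finset.sum_eq_single H]
      · have : (sp x v) H H = 0 := if_neg (Ne.symm h)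
        rw [this, zero_mul]; rfl
      · intro b _ hb
        rw [(φ.hom (gen x)).prop b hb, mul_zero]
      · intro h; exact absurd (Finset.mem_univ H) h
    · rfl
  exact (Ext.addEquiv₀ (X := Mo (cIic x)) (Y := Mo (cS K))).toEquiv.subsingleton

lemma ext_Iic_succ (x : L) (Y : ModuleCat.{0} (IA L)) (n : ℕ) :
    Subsingleton (Ext (Mo (cIic x)) Y (n+1)) :=
  Ext.subsingleton_of_projective _ _ _

lemma ext_Iic {x K : L} (h : x ≠ K) (n : ℕ) : Subsingleton (Ext (Mo (cIic x)) (Mo (cS K)) n) := by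
  cases n with
  | zero => exact ext0_Iic h
  | succ n => exact ext_Iic_succ x _ n

lemma ext_empty (B : Cv L) (hB : B.1 = ∅) (Y : ModuleCat.{0} (IA L)) (n : ℕ) :
    Subsingleton (Ext (Mo B) Y n) := by
  have h0 : Limits.IsZero (Mo B) := by
    rw [ModuleCat.isZero_iff_subsingleton]
    refine ⟨fun v w => Car.ext' fun K => ?_⟩
    have hK : K ∉ B.1 := by rw [hB]; exact Set.notMem_empty K
    rw [v.prop K hK, w.prop K hK]
  have := h0.hasProjectiveDimensionLT_zero
  exact subsingleton_of_forall_eq 0 fun x => x.eq_zero_of_hasProjectiveDimensionLT 0 (Nat.zero_le _)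


/-! Vanishing by a closure operator -/

section Closure
variable (c : L → L) (hle : ∀ X, X ≤ c X) (hmono : ∀ X Y, X ≤ Y → c X ≤ c Y)
  (hid : ∀ X, c (c X) = c X)

include hle hmono hid in
lemma van_aux (K : L) (hK : c K ≠ K) (k : ℕ) : ∀ (U : Cv L), U.1.ncard ≤ k → IsLowerSet U.1 →
    (∀ X ∈ U.1, c X ∈ U.1) → ∀ n, Subsingleton (Ext (Mo U) (Mo (cS K)) n) := by
  induction k with
  | zero =>
    intro U hU _ _ n
    refine ext_empty U ?_ _ n
    rwa [Nat.le_zero, Set.ncard_eq_zero (Set.toFinite _)] at hU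
  | succ k ih =>
    intro U hU hlow hcl n
    by_cases hne : U.1 = ∅
    · exact ext_empty U hne _ n
    obtain ⟨m, hm⟩ := (Set.toFinite U.1).exists_maximal (Set.nonempty_iff_ne_empty.2 hne)
    have hmU : m ∈ U.1 := hm.1
    have hcm : c m = m := le_antisymm (hm.2 (hcl m hmU) (hle m)) (hle m)
    have hmK : m ≠ K := by rintro rfl; exact hK hcm
    -- the three sets
    have conv : ∀ (A : Set L), IsLowerSet A → A.OrdConnected := fun A hA => hA.ordConnected
    let U1 : Cv L := ⟨{X | X ∈ U.1 ∧ c X ≠ m}, conv _ (by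
      intro X Y hYX hX
      refine ⟨hlow hYX hX.1, fun h => hX.2 ?_⟩
      have h1 : m ≤ c X := h ▸ hmono Y X hYX
      exact le_antisymm (hm.2 (hcl X hX.1) h1) h1)⟩
    let U2 : Cv L := ⟨{X | X ≤ m ∧ c X ≠ m}, conv _ (by
      intro X Y hYX hX
      refine ⟨hYX.trans hX.1, fun h => hX.2 ?_⟩
      have h1 : m ≤ c X := h ▸ hmono Y X hYX
      have h2 : c X ≤ m := hcm ▸ hmono X m hX.1
      exact le_antisymm h2 h1)⟩
    let F : Cv L := ⟨{X | c X = m}, ⟨fun X hX Y hY Z hZ => by
      have hX' : c X = m := hX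
      have hY' : c Y = m := hY
      exact le_antisymm (hY' ▸ hmono Z Y hZ.2) (hX' ▸ hmono X Z hZ.1)⟩⟩
    have hU1low : IsLowerSet U1.1 := by
      intro X Y hYX hX
      refine ⟨hlow hYX hX.1, fun h => hX.2 ?_⟩
      have h1 : m ≤ c X := h ▸ hmono Y X hYX
      exact le_antisymm (hm.2 (hcl X hX.1) h1) h1
    have hU2low : IsLowerSet U2.1 := by
      intro X Y hYX hX
      refine ⟨hYX.trans hX.1, fun h => hX.2 ?_⟩
      have h1 : m ≤ c X := h ▸ hmono Y X hYX
      have h2 : c X ≤ m := hcm ▸ hmono X m hX.1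
      exact le_antisymm h2 h1
    have hU1cl : ∀ X ∈ U1.1, c X ∈ U1.1 := fun X hX => ⟨hcl X hX.1, by rw [hid]; exact hX.2⟩
    have hU2cl : ∀ X ∈ U2.1, c X ∈ U2.1 := fun X hX => ⟨hcm ▸ hmono X m hX.1, by rw [hid]; exact hX.2⟩
    have hsub1 : U1.1 ⊂ U.1 := ⟨fun X hX => hX.1, fun h => (h hmU).2 hcm⟩
    have hsub2 : U2.1 ⊂ U.1 := ⟨fun X hX => hlow hX.1 hmU, fun h => (h hmU).2 hcm⟩
    have hc1 : U1.1.ncard ≤ k := by
      have := Set.ncard_lt_ncard hsub1 (Set.toFinite _); omega
    have hc2 : U2.1.ncard ≤ k := by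
      have := Set.ncard_lt_ncard hsub2 (Set.toFinite _); omega
    have v1 := ih U1 hc1 hU1low hU1cl
    have v2 := ih U2 hc2 hU2low hU2cl
    have e1 := ses_exact U1 U F (fun X hX => hX.1) (fun H hH K' _ hKH => hU1low hKH hH) (fun x => by
      constructor
      · intro hx
        have hx' : c x = m := hx
        exact ⟨hlow (hx' ▸ hle x) hmU, fun h => h.2 hx'⟩
      · intro hx
        by_contra h
        exact hx.2 ⟨hx.1, h⟩)
    have e2 := ses_exact U2 (cIic m) F (fun X hX => hX.1) (fun H hH K' _ hKH => hU2low hKH hH) (fun x => by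
      constructor
      · intro hx
        have hx' : c x = m := hx
        exact ⟨hx' ▸ hle x, fun h => h.2 hx'⟩
      · intro hx
        by_contra h
        exact hx.2 ⟨hx.1, h⟩)
    have vF : Subsingleton (Ext (Mo F) (Mo (cS K)) n) := by
      cases n with
      | zero => exact van3_zero e2 _ (ext_Iic hmK 0)
      | succ n => exact van3 e2 _ n (v2 n) (ext_Iic hmK (n+1))
    exact van2 e1 _ n (v1 n) vF

end Closure

/-! filtration -/
lemma filt (K : L) (n : ℕ) (k : ℕ) : ∀ (B : Cv L), B.1.ncard ≤ k →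
    (∀ X ∈ B.1, Subsingleton (Ext (Mo (cS X)) (Mo (cS K)) n)) →
    Subsingleton (Ext (Mo B) (Mo (cS K)) n) := by
  induction k with
  | zero =>
    intro B hB _
    refine ext_empty B ?_ _ n
    rwa [Nat.le_zero, Set.ncard_eq_zero (Set.toFinite _)] at hB
  | succ k ih =>
    intro B hB hX
    by_cases hne : B.1 = ∅
    · exact ext_empty B hne _ n
    obtain ⟨m, hm⟩ := (Set.toFinite B.1).exists_minimal (Set.nonempty_iff_ne_empty.2 hne)
    have hmB : m ∈ B.1 := hm.1
    let C : Cv L := ⟨B.1 \ {m}, ⟨fun X hXC Y hYC Z hZ => by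
      refine ⟨B.2.out hXC.1 hYC.1 hZ, ?_⟩
      rintro rfl
      exact hXC.2 (le_antisymm hZ.1 (hm.2 hXC.1 hZ.1))⟩⟩
    have hsub : C.1 ⊂ B.1 := ⟨fun X hX => hX.1, fun h => (h hmB).2 rfl⟩
    have hc : C.1.ncard ≤ k := by
      have := Set.ncard_lt_ncard hsub (Set.toFinite _); omega
    have e := ses_exact (cS m) B C (fun X hX => by rw [show X = m from hX]; exact hmB)
      (fun H hH K' hK' hKH => by
        have hH' : H = m := hH
        subst hH'
        exact le_antisymm hKH (hm.2 hK' hKH))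
      (fun x => Iff.rfl)
    exact van2 e _ n (hX m hmB) (ih C hc (fun X hX' => hX X hX'.1))

/-! the basic sequence of a simple -/
lemma sesS (X : L) : (ses (cIio X) (cIic X) (cS X) (fun _ h => le_of_lt h)
    (fun _ hH _ _ hKH => lt_of_le_of_lt hKH hH) (fun x => by
      constructor
      · rintro rfl
        exact ⟨le_refl x, lt_irrefl x⟩
      · rintro ⟨h1, h2⟩
        exact eq_of_le_of_not_lt h1 h2)).ShortExact := ses_exact _ _ _ _ _ _

/-! bound by a rank function -/
lemma bound (r : L → ℕ) (hr : ∀ X Y, X < Y → r X < r Y) (K : L) (n : ℕ) :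
    ∀ X : L, r X < n + r K → Subsingleton (Ext (Mo (cS X)) (Mo (cS K)) n) := by
  induction n with
  | zero =>
    intro X hX
    have hne : X ≠ K := by rintro rfl; omega
    exact van3_zero (sesS X) _ (ext_Iic hne 0)
  | succ n ih =>
    intro X hX
    refine van3 (sesS X) _ n ?_ (ext_Iic_succ X _ n)
    refine filt K n _ (cIio X) le_rfl (fun Y hY => ih Y ?_)
    have := hr Y X hY
    omega

/-! vanishing step -/
section Step
variable (c : L → L) (hle : ∀ X, X ≤ c X) (hmono : ∀ X Y, X ≤ Y → c X ≤ c Y)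
  (hid : ∀ X, c (c X) = c X)

/-- those `W < H` with `c W ≠ H` -/
def cA (H : L) : Cv L := ⟨{W | W < H ∧ ¬ H ≤ c W}, by
  have : IsLowerSet {W : L | W < H ∧ ¬ H ≤ c W} := by
    intro X Y hYX hX
    exact ⟨lt_of_le_of_lt hYX hX.1, fun h => hX.2 (h.trans (hmono Y X hYX))⟩
  exact this.ordConnected⟩

/-- those `W < H` with `c W ≥ H` -/
def cB (H : L) : Cv L := ⟨{W | W < H ∧ H ≤ c W}, ⟨fun X hX Y hY Z hZ =>
  ⟨lt_of_le_of_lt hZ.2 hY.1, hX.2.trans (hmono X Z hZ.1)⟩⟩⟩

include hmono in
lemma sesAB (H : L) : (ses (cA c hmono H) (cIio H) (cB c hmono H) (fun _ h => h.1)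
    (fun A hA K _ hKA => ⟨lt_of_le_of_lt hKA hA.1, fun h => hA.2 (h.trans (hmono K A hKA))⟩)
    (fun x => by
      constructor
      · rintro ⟨h1, h2⟩
        exact ⟨h1, fun h => h.2 h2⟩
      · rintro ⟨h1, h2⟩
        refine ⟨h1, ?_⟩
        by_contra h
        exact h2 ⟨h1, h⟩)).ShortExact := ses_exact _ _ _ _ _ _

include hle hmono hid in
lemma vanA (H K : L) (hH : c H = H) (hK : c K ≠ K) (n : ℕ) :
    Subsingleton (Ext (Mo (cA c hmono H)) (Mo (cS K)) n) := by
  refine van_aux c hle hmono hid K hK _ (cA c hmono H) le_rfl ?_ ?_ n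
  · intro X Y hYX hX
    exact ⟨lt_of_le_of_lt hYX hX.1, fun h => hX.2 (h.trans (hmono Y X hYX))⟩
  · intro X hX
    have h1 : c X ≤ H := hH ▸ hmono X H hX.1.le
    refine ⟨lt_of_le_of_ne h1 (fun h => hX.2 h.ge), ?_⟩
    rw [hid]; exact hX.2

include hle hmono hid in
lemma step_zero (H K : L) (hH : c H = H) (hK : c K ≠ K) (m : ℕ)
    (hW : ∀ W, W < H → H ≤ c W → Subsingleton (Ext (Mo (cS W)) (Mo (cS K)) m)) :
    Subsingleton (Ext (Mo (cS H)) (Mo (cS K)) (m+1)) := by
  refine van3 (sesS H) _ m ?_ (ext_Iic_succ H _ m)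
  refine van2 (sesAB c hmono H) _ m (vanA c hle hmono hid H K hH hK m) ?_
  exact filt K m _ (cB c hmono H) le_rfl (fun W hW' => hW W hW'.1 hW'.2)

include hle hmono hid in
lemma step_non (H X K : L) (hH : c H = H) (hK : c K ≠ K) (m : ℕ)
    (hXH : X < H) (hcov : ∀ W, X ≤ W → W < H → W = X) (hcX : H ≤ c X)
    (hmin : ∀ W, W < X → ¬ H ≤ c W)
    (hne : Nontrivial (Ext (Mo (cS X)) (Mo (cS K)) (m+1))) :
    Nontrivial (Ext (Mo (cS H)) (Mo (cS K)) (m+2)) := by
  refine non3 (sesS H) _ (m+1) (ext_Iic_succ H _ m) ?_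
  refine non2 (sesAB c hmono H) _ m (vanA c hle hmono hid H K hH hK m) ?_
  have hXB : X ∈ (cB c hmono H).1 := ⟨hXH, hcX⟩
  have h1a : ∀ K' ∈ (cS X).1, K' ∈ (cB c hmono H).1 → ∀ H' ∈ (cS X).1, K' ≤ H' → H' ∈ (cB c hmono H).1 := by
    intro K' _ _ H' hH' _
    rw [show H' = X from hH']; exact hXB
  have h1b : ∀ H' ∈ (cS X).1, H' ∈ (cB c hmono H).1 → ∀ K' ∈ (cB c hmono H).1, K' ≤ H' → K' ∈ (cS X).1 := by
    intro H' hH' _ K' hK' hKH
    rw [show H' = X from hH'] at hKH
    rcases hKH.lt_or_eq with h | h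
    · exact absurd hK'.2 (hmin K' h)
    · exact h
  have h2a : ∀ K' ∈ (cB c hmono H).1, K' ∈ (cS X).1 → ∀ H' ∈ (cB c hmono H).1, K' ≤ H' → H' ∈ (cS X).1 := by
    intro K' _ hK' H' hH' hKH
    rw [show K' = X from hK'] at hKH
    exact hcov H' hKH hH'.1
  have h2b : ∀ H' ∈ (cB c hmono H).1, H' ∈ (cS X).1 → ∀ K' ∈ (cS X).1, K' ≤ H' → K' ∈ (cB c hmono H).1 := by
    intro H' _ _ K' hK' _
    rw [show K' = X from hK']; exact hXB
  refine retract_non _ (ModuleCat.ofHom (res (cS X) (cB c hmono H) h1a h1b))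
    (ModuleCat.ofHom (res (cB c hmono H) (cS X) h2a h2b)) ?_ _ hne
  refine ModuleCat.hom_ext (LinearMap.ext fun v => ?_)
  change resFun (cB c hmono H) (cS X) (resFun (cS X) (cB c hmono H) v) = v
  exact resFun_surj (fun K' hK' => by rw [show K' = X from hK']; exact hXB) v

end Step

lemma ext_one (K X : L) (hKX : K < X) (hcov : ∀ W, K ≤ W → W < X → W = K) :
    Nontrivial (Ext (Mo (cS X)) (Mo (cS K)) 1) := by
  refine non3 (sesS X) _ 0 (ext_Iic hKX.ne' 0) ?_
  have h1 : ∀ K' ∈ (cIio X).1, K' ∈ (cS K).1 → ∀ H' ∈ (cIio X).1, K' ≤ H' → H' ∈ (cS K).1 := by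
    intro K' _ hK' H' hH' hKH
    rw [show K' = K from hK'] at hKH
    exact hcov H' hKH hH'
  have h2 : ∀ H' ∈ (cIio X).1, H' ∈ (cS K).1 → ∀ K' ∈ (cS K).1, K' ≤ H' → K' ∈ (cIio X).1 := by
    intro H' _ _ K' hK' _
    rw [show K' = K from hK']; exact hKX
  let φ : Mo (cIio X) ⟶ Mo (cS K) := ModuleCat.ofHom (res (cIio X) (cS K) h1 h2)
  have hφ : φ ≠ 0 := by
    intro h
    let v : Car (cIio X) := ⟨fun a => if a = K then 1 else 0, fun a ha => by
      rw [if_neg]; rintro rfl; exact ha hKX⟩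
    have h3 : φ.hom v = (0 : Car (cS K)) := by rw [h]; rfl
    have h4 : (resFun (cIio X) (cS K) v).val K = (0 : Car (cS K)).val K := congrArg (fun w : Car (cS K) => w.val K) h3
    rw [resFun_val, if_pos (show K ∈ (cS K).1 from rfl)] at h4
    change (if K = K then (1:ℚ) else 0) = 0 at h4
    rw [if_pos rfl] at h4
    exact one_ne_zero h4
  have : Nontrivial (Mo (cIio X) ⟶ Mo (cS K)) := ⟨⟨φ, 0, hφ⟩⟩
  exact (Ext.addEquiv₀ (X := Mo (cIio X)) (Y := Mo (cS K))).toEquiv.nontrivial


/-! orientation: nonzero `Ext` in positive degree only goes from `X` to `K < X` -/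
lemma orient0 (K : L) (n : ℕ) : ∀ X : L, ¬ K ≤ X →
    Subsingleton (Ext (Mo (cS X)) (Mo (cS K)) n) := by
  induction n with
  | zero =>
    intro X hX
    have hne : X ≠ K := by rintro rfl; exact hX le_rfl
    exact van3_zero (sesS X) _ (ext_Iic hne 0)
  | succ n ih =>
    intro X hX
    refine van3 (sesS X) _ n ?_ (ext_Iic_succ X _ n)
    exact filt K n _ (cIio X) le_rfl (fun Y hY => ih Y (fun h => hX (h.trans (le_of_lt hY))))

lemma orient1 (K X : L) (n : ℕ) (h : ¬ K < X) :
    Subsingleton (Ext (Mo (cS X)) (Mo (cS K)) (n+1)) := by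
  by_cases hKX : K ≤ X
  · have : K = X := eq_of_le_of_not_lt hKX h
    subst this
    refine van3 (sesS K) _ n ?_ (ext_Iic_succ K _ n)
    exact filt K n _ (cIio K) le_rfl (fun Y hY => orient0 K n Y (fun h => (lt_of_lt_of_le hY h).false))
  · exact orient0 K (n+1) X hKX

lemma orient (K X : L) (n : ℕ) (hn : 1 ≤ n) (h : Nontrivial (Ext (S X) (S K) n)) : K < X := by
  by_contra hcon
  obtain ⟨m, rfl⟩ : ∃ m, n = m + 1 := ⟨n - 1, by omega⟩
  have := iso_sub _ (isoS X) (m+1) (iso_sub_right (isoS K) (m+1) (orient1 K X m hcon))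
  exact not_subsingleton _ this

end Modules

end PartA

section PartB

/-- the generalised quaternion group of order `24` -/
abbrev Q := QuaternionGroup 6

/-- 2x2 matrices over F_11 -/
structure M2 where
  /-- entry -/
  a : ZMod 11
  /-- entry -/
  b : ZMod 11
  /-- entry -/
  c : ZMod 11
  /-- entry -/
  d : ZMod 11
deriving DecidableEq

/-- product -/
def M2.mul (m n : M2) : M2 :=
  ⟨m.a * n.a + m.b * n.c, m.a * n.b + m.b * n.d, m.c * n.a + m.d * n.c, m.c * n.b + m.d * n.d⟩

/-- powers of `A = [[0,-1],[1,5]]` -/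
def tab : List M2 := [⟨1, 0, 0, 1⟩, ⟨0, 10, 1, 5⟩, ⟨10, 6, 5, 2⟩, ⟨6, 9, 2, 5⟩, ⟨9, 6, 5, 1⟩, ⟨6, 10, 1, 0⟩,
  ⟨10, 0, 0, 10⟩, ⟨0, 1, 10, 6⟩, ⟨1, 5, 6, 9⟩, ⟨5, 2, 9, 6⟩, ⟨2, 5, 6, 10⟩, ⟨5, 1, 10, 0⟩]

/-- `A^i` -/
def pwA (i : ZMod 12) : M2 := tab.getD i.val ⟨0,0,0,0⟩

/-- the matrix of an element -/
def mat : Q → M2
  | a i => pwA i
  | xa i => M2.mul ⟨2, 2, 3, 9⟩ (pwA i)

theorem mat_mul : ∀ p q : Q, mat (p * q) = M2.mul (mat p) (mat q) := by decide
theorem mat_one : mat 1 = ⟨1,0,0,1⟩ := by decide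
theorem mat_eig : ∀ (p : Q) (k : ZMod 11),
  ((mat p).a - k) * ((mat p).d - k) - (mat p).b * (mat p).c = 0 → p = 1 ∨ p = a 6 := by decide
theorem mat_one_eig : ∀ (p : Q),
  ((mat p).a - 1) * ((mat p).d - 1) - (mat p).b * (mat p).c = 0 → p = 1 := by decide
theorem D2 : ∀ b : Q, b * b = 1 → b = 1 ∨ b = a 6 := by decide
theorem D2' : ∀ b : Q, b * a 6 = a 6 * b := by decide
theorem D1 : (a 6 : Q) ≠ 1 := by decide

/-- action of a matrix on a vector -/
def act (m : M2) (v : ZMod 11 × ZMod 11) : ZMod 11 × ZMod 11 :=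
  (m.a * v.1 + m.b * v.2, m.c * v.1 + m.d * v.2)

lemma act_mul (m n : M2) (v : ZMod 11 × ZMod 11) : act (M2.mul m n) v = act m (act n v) := by
  ext <;> simp only [act, M2.mul] <;> ring

lemma act_add (m : M2) (v w : ZMod 11 × ZMod 11) : act m (v + w) = act m v + act m w := by
  ext <;> simp only [act, Prod.fst_add, Prod.snd_add] <;> ring

lemma act_one (v : ZMod 11 × ZMod 11) : act (mat 1) v = v := by
  rw [mat_one]; ext <;> simp [act]

instance : Fact (Nat.Prime 11) := ⟨by norm_num⟩

lemma act_eig (m : M2) (k : ZMod 11) (h : (m.a - k) * (m.d - k) - m.b * m.c ≠ 0)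
    (v : ZMod 11 × ZMod 11) (h1 : m.a * v.1 + m.b * v.2 = k * v.1)
    (h2 : m.c * v.1 + m.d * v.2 = k * v.2) : v = 0 := by
  have e1 : ((m.a - k) * (m.d - k) - m.b * m.c) * v.1 = 0 := by
    linear_combination (m.d - k) * h1 - m.b * h2
  have e2 : ((m.a - k) * (m.d - k) - m.b * m.c) * v.2 = 0 := by
    linear_combination (m.a - k) * h2 - m.c * h1
  ext
  · exact (mul_eq_zero.1 e1).resolve_left h
  · exact (mul_eq_zero.1 e2).resolve_left h

/-- the additive group `F_11^2`, written multiplicatively -/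
abbrev V0 := Multiplicative (ZMod 11 × ZMod 11)

/-- the action -/
def phi : Q →* MulAut V0 where
  toFun q :=
   { toFun := fun v => Multiplicative.ofAdd (act (mat q) v.toAdd)
     invFun := fun v => Multiplicative.ofAdd (act (mat q⁻¹) v.toAdd)
     left_inv := fun v => by
      change Multiplicative.ofAdd (act (mat q⁻¹) (act (mat q) v.toAdd)) = v
      rw [← act_mul, ← mat_mul, inv_mul_cancel, act_one]; rfl
     right_inv := fun v => by
      change Multiplicative.ofAdd (act (mat q) (act (mat q⁻¹) v.toAdd)) = v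
      rw [← act_mul, ← mat_mul, mul_inv_cancel, act_one]; rfl
     map_mul' := fun v w => by
      change Multiplicative.ofAdd (act (mat q) (v.toAdd + w.toAdd)) = _
      rw [act_add]; rfl }
  map_one' := by
    refine MulEquiv.ext fun v => ?_
    change Multiplicative.ofAdd (act (mat 1) v.toAdd) = v
    rw [act_one]; rfl
  map_mul' p q := by
    refine MulEquiv.ext fun v => ?_
    change Multiplicative.ofAdd (act (mat (p * q)) v.toAdd) =
      Multiplicative.ofAdd (act (mat p) (act (mat q) v.toAdd))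
    rw [mat_mul, act_mul]

lemma phi_val (q : Q) (v : V0) : (phi q v).toAdd = act (mat q) v.toAdd := rfl

lemma phi_eig (q : Q) (hq : q ≠ 1) (hq' : q ≠ a 6) (k : ℤ) (v : V0) (h : phi q v = v ^ k) : v = 1 := by
  have h0 : v.toAdd = 0 := by
    have h1 : act (mat q) v.toAdd = k • v.toAdd := by
      rw [← phi_val, h]; rfl
    have h2 := congrArg Prod.fst h1
    have h3 := congrArg Prod.snd h1
    refine act_eig (mat q) (k : ZMod 11) (fun h => ?_) _ ?_ ?_
    · rcases mat_eig q k h with h | h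
      · exact hq h
      · exact hq' h
    · rw [← zsmul_eq_mul]; exact h2
    · rw [← zsmul_eq_mul]; exact h3
  exact h0

lemma phi_fix (q : Q) (hq : q ≠ 1) (v : V0) (h : phi q v = v) : v = 1 := by
  have h0 : v.toAdd = 0 := by
    have h1 : act (mat q) v.toAdd = v.toAdd := by
      rw [← phi_val, h]
    have h2 := congrArg Prod.fst h1
    have h3 := congrArg Prod.snd h1
    refine act_eig (mat q) 1 (fun h => hq (mat_one_eig q h)) _ ?_ ?_
    · rw [one_mul]; exact h2
    · rw [one_mul]; exact h3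
  exact h0

/-- the group `F_11^2 ⋊ Q_24` -/
abbrev G := V0 ⋊[phi] Q

/-- the quotient map -/
def qq : G →* Q := SemidirectProduct.rightHom

/-- the normal subgroup -/
def VV : Subgroup G := qq.ker

instance : VV.Normal := by unfold VV; infer_instance
instance : Finite V0 := inferInstanceAs (Finite (ZMod 11 × ZMod 11))
instance : Finite G := Finite.of_equiv _ SemidirectProduct.equivProd.symm

lemma mem_VV (g : G) : g ∈ VV ↔ g.right = 1 := Iff.rfl

lemma qq_eq (g : G) : qq g = g.right := rfl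

lemma card_VV : Nat.card VV = 121 := by
  have h1 := Subgroup.card_mul_index VV
  have h2 : VV.index = 24 := by
    have hs : Function.Surjective qq := SemidirectProduct.rightHom_surjective
    unfold VV
    rw [Subgroup.index_ker, MonoidHom.range_eq_top.2 hs, Subgroup.card_top,
      Nat.card_eq_fintype_card, QuaternionGroup.card]
  have h3 : Nat.card G = 121 * 24 := by
    rw [SemidirectProduct.card, Nat.card_eq_fintype_card (α := Q), QuaternionGroup.card]
    congr 1
    change Nat.card (ZMod 11 × ZMod 11) = 121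
    simp [Nat.card_prod]
  rw [h2, h3] at h1
  omega

lemma card_dvd_of_disj (X : Subgroup G) (h : X ⊓ VV = ⊥) : Nat.card X ∣ 24 := by
  have : Function.Injective (qq.comp X.subtype) := by
    rw [← MonoidHom.ker_eq_bot_iff, eq_bot_iff]
    intro x hx
    rw [Subgroup.mem_bot]
    have : (x : G) ∈ X ⊓ VV := ⟨x.2, hx⟩
    rw [h, Subgroup.mem_bot] at this
    exact Subtype.ext this
  have h2 := Subgroup.card_dvd_of_injective _ this
  rwa [Nat.card_eq_fintype_card (α := Q), QuaternionGroup.card] at h2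

lemma card_split (X : Subgroup G) : Nat.card X = Nat.card (X ⊓ VV : Subgroup G) * Nat.card (X.map qq) := by
  have h1 := Subgroup.card_mul_index (qq.comp X.subtype).ker
  rw [Subgroup.index_ker] at h1
  have h2 : (qq.comp X.subtype).range = X.map qq := by
    rw [MonoidHom.range_comp, Subgroup.range_subtype]
  have h3 : Nat.card (qq.comp X.subtype).ker = Nat.card (X ⊓ VV : Subgroup G) := by
    have : (X ⊓ VV : Subgroup G) = ((qq.comp X.subtype).ker).map X.subtype := by
      ext g
      simp only [Subgroup.mem_inf, Subgroup.mem_map, Subgroup.subtype_apply, Subtype.exists, exists_and_right, exists_eq_right]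
      constructor
      · rintro ⟨h1, h2⟩; exact ⟨h1, h2⟩
      · rintro ⟨h1, h2⟩; exact ⟨h1, h2⟩
    rw [this]
    exact (Nat.card_congr (Subgroup.equivMapOfInjective _ _ X.subtype_injective).toEquiv)
  rw [h2, h3] at h1
  exact h1.symm

lemma conj_inl (g : G) (v : V0) :
    g * SemidirectProduct.inl v * g⁻¹ = SemidirectProduct.inl (phi (qq g) v) := by
  obtain ⟨n, q⟩ := g
  have h : (⟨n, q⟩ : G) = SemidirectProduct.inl n * SemidirectProduct.inr q :=
    SemidirectProduct.mk_eq_inl_mul_inr q n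
  have h2 : qq ⟨n, q⟩ = q := rfl
  rw [h2, SemidirectProduct.inl_aut, h, mul_inv_rev]
  have h3 : (SemidirectProduct.inr q : G) * SemidirectProduct.inl v * (SemidirectProduct.inr q)⁻¹ =
      SemidirectProduct.inl (phi q v) := by
    rw [SemidirectProduct.inl_aut, map_inv]
  calc (SemidirectProduct.inl n : G) * SemidirectProduct.inr q * SemidirectProduct.inl v *
        ((SemidirectProduct.inr q)⁻¹ * (SemidirectProduct.inl n)⁻¹)
      = SemidirectProduct.inl n * (SemidirectProduct.inr q * SemidirectProduct.inl v *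
        (SemidirectProduct.inr q)⁻¹) * (SemidirectProduct.inl n)⁻¹ := by group
    _ = SemidirectProduct.inl n * SemidirectProduct.inl (phi q v) * (SemidirectProduct.inl n)⁻¹ := by
        rw [h3]
    _ = SemidirectProduct.inl (n * phi q v * n⁻¹) := by rw [← map_inv, ← map_mul, ← map_mul]
    _ = SemidirectProduct.inl (phi q v) := by rw [mul_comm n, mul_inv_cancel_right]
    _ = _ := by rw [SemidirectProduct.inl_aut]

lemma mem_VV' (g : G) (h : g ∈ VV) : g = SemidirectProduct.inl g.left := by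
  exact SemidirectProduct.ext rfl h

/-- invariant subgroups -/
lemma inv_sub (g : G) (h1 : qq g ≠ 1) (h2 : qq g ≠ a 6) (W : Subgroup G) (hWV : W ≤ VV)
    (hinv : ∀ w ∈ W, g * w * g⁻¹ ∈ W) (hne : W ≠ ⊥) : W = VV := by
  have hd : Nat.card W ∣ 11 ^ 2 := by
    have := Subgroup.card_dvd_of_le hWV
    rwa [card_VV] at this
  rw [Nat.dvd_prime_pow (by norm_num)] at hd
  obtain ⟨k, hk, hk2⟩ := hd
  interval_cases k
  · exact absurd (Subgroup.eq_bot_of_card_eq _ hk2) hne
  · exfalso
    obtain ⟨w, hw1⟩ := Subgroup.ne_bot_iff_exists_ne_one.1 hne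
    obtain ⟨w, hw⟩ := w
    rw [pow_one] at hk2
    have h3 := mem_zpowers_of_prime_card (G := W) hk2 (g := ⟨w, hw⟩) (g' := ⟨g * w * g⁻¹, hinv w hw⟩) hw1
    rw [Subgroup.mem_zpowers_iff] at h3
    obtain ⟨k, hk⟩ := h3
    have h4 : w ^ k = g * w * g⁻¹ := congrArg Subtype.val hk
    have hwr := mem_VV' w (hWV hw)
    rw [hwr, conj_inl, ← map_zpow] at h4
    have h5 := SemidirectProduct.inl_injective h4
    have h6 := phi_eig _ h1 h2 k _ h5.symm
    apply hw1
    apply Subtype.ext
    change w = 1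
    rw [hwr, h6, map_one]
  · exact Subgroup.eq_of_le_of_card_ge hWV (by rw [hk2, card_VV]; norm_num)


lemma exists_good (X : Subgroup G) (h : 3 ≤ Nat.card (X.map qq)) :
    ∃ g ∈ X, qq g ≠ 1 ∧ qq g ≠ a 6 := by
  by_contra hcon
  push Not at hcon
  have h1 : ((X.map qq : Subgroup Q) : Set Q) ⊆ {1, a 6} := by
    rintro _ ⟨g, hg, rfl⟩
    by_cases h : qq g = 1
    · left; exact h
    · right; exact hcon g hg h
  have h2 : Nat.card (X.map qq) ≤ 2 := by
    have h3 : ((X.map qq : Subgroup Q) : Set Q).ncard ≤ ({1, a 6} : Set Q).ncard :=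
      Set.ncard_le_ncard h1 (Set.toFinite _)
    have h4 : ({1, a 6} : Set Q).ncard ≤ 2 := Set.ncard_insert_le _ _ |>.trans (by simp)
    exact h3.trans h4
  omega

/-- In a subgroup meeting `VV` trivially, an element of order two. -/
lemma invol_unique (X : Subgroup G) (h : X ⊓ VV = ⊥) (s t : G) (hs : s ∈ X) (ht : t ∈ X)
    (hs2 : s * s = 1) (ht2 : t * t = 1) (hs1 : s ≠ 1) (ht1 : t ≠ 1) : s = t := by
  have key : ∀ u ∈ X, u * u = 1 → u ≠ 1 → qq u = a 6 := by
    intro u hu hu2 hu1
    have h1 : qq u * qq u = 1 := by rw [← map_mul, hu2, map_one]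
    rcases D2 _ h1 with h2 | h2
    · exfalso; apply hu1
      have : u ∈ X ⊓ VV := ⟨hu, h2⟩
      rwa [h, Subgroup.mem_bot] at this
    · exact h2
  have h1 : s * t⁻¹ ∈ X ⊓ VV := by
    refine ⟨X.mul_mem hs (X.inv_mem ht), ?_⟩
    change qq (s * t⁻¹) = 1
    rw [map_mul, map_inv, key s hs hs2 hs1, key t ht ht2 ht1, mul_inv_cancel]
  rw [h, Subgroup.mem_bot, mul_inv_eq_one] at h1
  exact h1

lemma exists_invol (X : Subgroup G) (h : 2 ∣ Nat.card X) : ∃ t ∈ X, t * t = 1 ∧ t ≠ 1 := by
  obtain ⟨x, hx⟩ := exists_prime_orderOf_dvd_card' (G := X) 2 h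
  refine ⟨x, x.2, ?_, ?_⟩
  · have := pow_orderOf_eq_one x
    rw [hx, pow_two] at this
    exact congrArg Subtype.val this
  · intro h1
    have : x = 1 := Subtype.ext h1
    rw [this, orderOf_one] at hx
    omega

/-- key lemma: if `4 ∣ |X|` and `X ∩ V = 1` then there is `t` with no proper supplement -/
lemma lemZ (X : Subgroup G) (h : X ⊓ VV = ⊥) (h4 : 4 ∣ Nat.card X) :
    ∃ t : G, t ≠ 1 ∧ t ∈ X ∧ ∀ W : Subgroup G, W < X → ¬ X ≤ W ⊔ Subgroup.zpowers t := by
  obtain ⟨t, htX, ht2, ht1⟩ := exists_invol X ((by norm_num : 2 ∣ 4).trans h4)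
  refine ⟨t, ht1, htX, fun W hW hle => ?_⟩
  have hqt : qq t = a 6 := by
    have h1 : qq t * qq t = 1 := by rw [← map_mul, ht2, map_one]
    rcases D2 _ h1 with h2 | h2
    · exfalso; apply ht1
      have : t ∈ X ⊓ VV := ⟨htX, h2⟩
      rwa [h, Subgroup.mem_bot] at this
    · exact h2
  have hcomm : ∀ x ∈ X, x * t = t * x := by
    intro x hx
    have h1 : x * t * x⁻¹ * t⁻¹ ∈ X ⊓ VV := by
      refine ⟨X.mul_mem (X.mul_mem (X.mul_mem hx htX) (X.inv_mem hx)) (X.inv_mem htX), ?_⟩
      change qq (x * t * x⁻¹ * t⁻¹) = 1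
      rw [map_mul, map_mul, map_mul, map_inv, map_inv, hqt, D2']
      group
    rw [h, Subgroup.mem_bot] at h1
    calc x * t = (x * t * x⁻¹ * t⁻¹) * t * x := by group
      _ = t * x := by rw [h1, one_mul]
  -- the subgroup of elements of X lying in W ∪ tW
  let D : Subgroup G :=
    { carrier := {x | x ∈ X ∧ (x ∈ W ∨ t * x ∈ W)}
      one_mem' := ⟨X.one_mem, Or.inl W.one_mem⟩
      mul_mem' := by
        rintro x y ⟨hx, hx'⟩ ⟨hy, hy'⟩
        refine ⟨X.mul_mem hx hy, ?_⟩
        rcases hx' with hx' | hx' <;> rcases hy' with hy' | hy'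
        · left; exact W.mul_mem hx' hy'
        · right
          have : t * (x * y) = x * (t * y) := by rw [← mul_assoc, ← hcomm x hx, mul_assoc]
          rw [this]; exact W.mul_mem hx' hy'
        · right
          rw [← mul_assoc]; exact W.mul_mem hx' hy'
        · left
          have : x * y = (t * x) * (t * y) := by
            calc x * y = (t * t) * x * y := by rw [ht2, one_mul]
              _ = t * (t * x) * y := by group
              _ = t * (x * t) * y := by rw [hcomm x hx]
              _ = (t * x) * (t * y) := by group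
          rw [this]; exact W.mul_mem hx' hy'
      inv_mem' := by
        rintro x ⟨hx, hx'⟩
        refine ⟨X.inv_mem hx, ?_⟩
        rcases hx' with hx' | hx'
        · left; exact W.inv_mem hx'
        · right
          have h1 : (t * x)⁻¹ ∈ W := W.inv_mem hx'
          have h2 : t⁻¹ = t := inv_eq_of_mul_eq_one_left ht2
          have h3 : t * x⁻¹ = (t * x)⁻¹ := by
            rw [mul_inv_rev, h2, hcomm _ (X.inv_mem hx)]
          rw [h3]; exact h1 }
  have hWD : W ≤ D := fun w hw => ⟨hW.le hw, Or.inl hw⟩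
  have htD : Subgroup.zpowers t ≤ D := by
    rw [Subgroup.zpowers_le]
    exact ⟨htX, Or.inr (by rw [ht2]; exact W.one_mem)⟩
  have hXD : X ≤ D := hle.trans (sup_le hWD htD)
  have htW : t ∉ W := by
    intro htW
    apply hW.not_ge
    refine hle.trans (sup_le le_rfl ?_)
    rw [Subgroup.zpowers_le]; exact htW
  -- counting
  have hcard : Nat.card X ≤ 2 * Nat.card W := by
    have hsub : (X : Set G) ⊆ (W : Set G) ∪ (fun w => t * w) '' (W : Set G) := by
      intro x hx
      rcases (hXD hx).2 with h1 | h1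
      · left; exact h1
      · right
        exact ⟨t * x, h1, by change t * (t * x) = x; rw [← mul_assoc, ht2, one_mul]⟩
    have h1 : (X : Set G).ncard ≤ ((W : Set G) ∪ (fun w => t * w) '' (W : Set G)).ncard :=
      Set.ncard_le_ncard hsub (Set.toFinite _)
    have h2 := Set.ncard_union_le (W : Set G) ((fun w => t * w) '' (W : Set G))
    have h3 : ((fun w => t * w) '' (W : Set G)).ncard ≤ (W : Set G).ncard := Set.ncard_image_le (Set.toFinite _)
    have h5 : (X : Set G).ncard = Nat.card X := rfl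
    have h6 : (W : Set G).ncard = Nat.card W := rfl
    omega
  obtain ⟨k, hk⟩ := Subgroup.card_dvd_of_le hW.le
  have hk1 : k ≠ 1 := by
    rintro rfl
    rw [mul_one] at hk
    exact hW.ne (Subgroup.eq_of_le_of_card_ge hW.le hk.le)
  have hk0 : k ≠ 0 := by
    rintro rfl
    have : 0 < Nat.card X := Nat.card_pos
    omega
  have hWpos : 0 < Nat.card W := Nat.card_pos
  have hk2 : k = 2 := by
    have : Nat.card W * k ≤ Nat.card W * 2 := by rw [← hk]; omega
    have := Nat.le_of_mul_le_mul_left this hWpos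
    omega
  have h2W : 2 ∣ Nat.card W := by
    rw [hk, hk2] at h4
    omega
  obtain ⟨s, hsW, hs2, hs1⟩ := exists_invol W h2W
  have := invol_unique X h s t (hW.le hsW) htX hs2 ht2 hs1 ht1
  exact htW (this ▸ hsW)

end PartB

section PartC
open scoped Classical


noncomputable instance instFS (G : Type) [Group G] [Finite G] : Fintype (Subgroup G) :=
  Fintype.ofFinite _
noncomputable instance instLF (G : Type) [Group G] [Finite G] : LocallyFiniteOrder (Subgroup G) :=
  Fintype.toLocallyFiniteOrder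

/-- the Frattini subgroup of the group `H`, as a subgroup of `G` -/
def Phi {G : Type} [Group G] (H : Subgroup G) : Subgroup G := (frattini H).map H.subtype

lemma Phi_le_of_max {G : Type} [Group G] (X M : Subgroup G) (hM : M < X)
    (hmax : ∀ W, M < W → W ≤ X → W = X) : Phi X ≤ M := by
  have hc : IsCoatom (M.subgroupOf X) := by
    constructor
    · intro h
      rw [Subgroup.subgroupOf_eq_top] at h
      exact hM.not_ge h
    · intro C hC
      have h1 : M ≤ C.map X.subtype := by
        intro m hm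
        exact ⟨⟨m, hM.le hm⟩, hC.le hm, rfl⟩
      have h2 : M ≠ C.map X.subtype := by
        intro h
        apply hC.ne
        ext x
        rw [Subgroup.mem_subgroupOf, h]
        constructor
        · rintro ⟨y, hy, hyx⟩
          have : y = x := Subtype.ext hyx
          rwa [← this]
        · intro hx
          exact ⟨x, hx, rfl⟩
      have h3 := hmax _ (lt_of_le_of_ne h1 h2) (Subgroup.map_subtype_le C)
      rw [eq_top_iff]
      intro x _
      have h4 : (x : G) ∈ C.map X.subtype := by rw [h3]; exact x.2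
      obtain ⟨y, hy, hyx⟩ := h4
      have : y = x := Subtype.ext hyx
      rwa [← this]
  have h1 := frattini_le_coatom hc
  intro g hg
  obtain ⟨x, hx, rfl⟩ := hg
  exact h1 hx

/-- rank -/
noncomputable def rk {G : Type} [Group G] (X : Subgroup G) : ℕ := ArithmeticFunction.cardFactors (Nat.card X)

lemma rk_mono {G : Type} [Group G] [Finite G] (X Y : Subgroup G) (h : X < Y) : rk X < rk Y := by
  obtain ⟨k, hk⟩ := Subgroup.card_dvd_of_le h.le
  have hX : 0 < Nat.card X := Nat.card_pos
  have hY : 0 < Nat.card Y := Nat.card_pos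
  have hk0 : k ≠ 0 := by rintro rfl; omega
  have hk1 : k ≠ 1 := by
    rintro rfl
    rw [mul_one] at hk
    exact h.ne (Subgroup.eq_of_le_of_card_ge h.le hk.le)
  unfold rk
  rw [hk, ArithmeticFunction.cardFactors_mul hX.ne' hk0]
  have : ArithmeticFunction.cardFactors k ≠ 0 := by
    intro h0
    rw [ArithmeticFunction.cardFactors_eq_zero_iff_eq_zero_or_one] at h0
    omega
  omega


open ArithmeticFunction in
lemma om_small (b : ℕ) (hb : b ≤ 3) : cardFactors b ≤ 1 := by
  interval_cases b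
  · simp
  · simp
  · rw [cardFactors_apply_prime (by norm_num)]
  · rw [cardFactors_apply_prime (by norm_num)]

open ArithmeticFunction in
lemma om_4 : cardFactors 4 = 2 := by
  rw [show (4:ℕ) = 2 ^ 2 by norm_num, cardFactors_apply_prime_pow (by norm_num)]
open ArithmeticFunction in
lemma om_8 : cardFactors 8 = 3 := by
  rw [show (8:ℕ) = 2 ^ 3 by norm_num, cardFactors_apply_prime_pow (by norm_num)]
open ArithmeticFunction in
lemma om_6 : cardFactors 6 = 2 := by
  rw [show (6:ℕ) = 2 * 3 by norm_num, cardFactors_mul (by norm_num) (by norm_num),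
    cardFactors_apply_prime (by norm_num), cardFactors_apply_prime (by norm_num)]
open ArithmeticFunction in
lemma om_12 : cardFactors 12 = 3 := by
  rw [show (12:ℕ) = 4 * 3 by norm_num, cardFactors_mul (by norm_num) (by norm_num), om_4,
    cardFactors_apply_prime (by norm_num)]
open ArithmeticFunction in
lemma om_24 : cardFactors 24 = 4 := by
  rw [show (24:ℕ) = 8 * 3 by norm_num, cardFactors_mul (by norm_num) (by norm_num), om_8,
    cardFactors_apply_prime (by norm_num)]
open ArithmeticFunction in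
lemma om_121 : cardFactors 121 = 2 := by
  rw [show (121:ℕ) = 11 ^ 2 by norm_num, cardFactors_apply_prime_pow (by norm_num)]

lemma dvd24 (b : ℕ) (h : b ∣ 24) : b ≤ 3 ∨ b = 4 ∨ b = 6 ∨ b = 8 ∨ b = 12 ∨ b = 24 := by
  have : b ≤ 24 := Nat.le_of_dvd (by norm_num) h
  interval_cases b <;> omega

open ArithmeticFunction in
lemma om_le (b : ℕ) (h : b ∣ 24) (h2 : b ≠ 24) : cardFactors b ≤ 3 := by
  rcases dvd24 b h with h | rfl | rfl | rfl | rfl | h
  · exact (om_small b h).trans (by norm_num)
  · rw [om_4]; norm_num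
  · rw [om_6]; norm_num
  · rw [om_8]
  · rw [om_12]
  · exact absurd h h2

open ArithmeticFunction in
lemma om_le2 (b : ℕ) (h : b ∣ 24) (h2 : ¬ 4 ∣ b) : cardFactors b ≤ 2 := by
  rcases dvd24 b h with h | rfl | rfl | rfl | rfl | rfl
  · exact (om_small b h).trans (by norm_num)
  · exact absurd (by norm_num) h2
  · rw [om_6]
  · exact absurd (by norm_num) h2
  · exact absurd (by norm_num) h2
  · exact absurd (by norm_num) h2

/-- maximality of complements -/
lemma maxC (C X : Subgroup G) (hC : C ⊓ VV = ⊥) (hCs : ∀ g : G, ∃ c ∈ C, qq c = qq g)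
    (hX : VV ≤ X) (h3 : 3 ≤ Nat.card (X.map qq)) :
    X ⊓ C < X ∧ ∀ W, X ⊓ C < W → W ≤ X → W = X := by
  have lift : ∀ x ∈ X, ∃ c ∈ X ⊓ C, qq c = qq x := by
    intro x hx
    obtain ⟨c, hc, hcx⟩ := hCs x
    refine ⟨c, ⟨?_, hc⟩, hcx⟩
    have h1 : c * x⁻¹ ∈ VV := by
      change qq (c * x⁻¹) = 1
      rw [map_mul, map_inv, hcx, mul_inv_cancel]
    have h2 := X.mul_mem (hX h1) hx
    rwa [inv_mul_cancel_right] at h2
  constructor
  · refine lt_of_le_of_ne inf_le_left fun h => ?_
    have h1 : VV ≤ C := hX.trans (inf_eq_left.1 h)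
    have h2 : VV = ⊥ := by rw [← hC]; exact (inf_eq_right.2 h1).symm
    have h3 := card_VV
    rw [h2, Subgroup.card_bot] at h3
    omega
  · intro W hW hWX
    obtain ⟨g', hg', hg1, hg2⟩ := exists_good X h3
    obtain ⟨g, hg, hgg⟩ := lift g' hg'
    rw [← hgg] at hg1 hg2
    have hgW : g ∈ W := hW.le hg
    by_cases hb : W ⊓ VV = ⊥
    · exfalso
      apply hW.not_ge
      intro w hw
      obtain ⟨c, hc, hcw⟩ := lift w (hWX hw)
      have h1 : w * c⁻¹ ∈ W ⊓ VV := by
        refine ⟨W.mul_mem hw (W.inv_mem (hW.le hc)), ?_⟩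
        change qq (w * c⁻¹) = 1
        rw [map_mul, map_inv, hcw, mul_inv_cancel]
      rw [hb, Subgroup.mem_bot, mul_inv_eq_one] at h1
      rw [h1]; exact hc
    · have h1 := inv_sub g hg1 hg2 (W ⊓ VV) inf_le_right (fun w hw =>
        ⟨W.mul_mem (W.mul_mem hgW hw.1) (W.inv_mem hgW), (inferInstance : VV.Normal).conj_mem w hw.2 g⟩) hb
      have h2 : VV ≤ W := inf_eq_right.1 h1
      refine le_antisymm hWX fun x hx => ?_
      obtain ⟨c, hc, hcx⟩ := lift x hx
      have h3 : x * c⁻¹ ∈ VV := by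
        change qq (x * c⁻¹) = 1
        rw [map_mul, map_inv, hcx, mul_inv_cancel]
      have h4 := W.mul_mem (h2 h3) (hW.le hc)
      rwa [inv_mul_cancel_right] at h4

/-- complement -/
def Y0 : Subgroup G := (SemidirectProduct.inr : Q →* G).range

/-- a vector -/
def v0 : V0 := Multiplicative.ofAdd (1, 0)

lemma v0_ne : v0 ≠ 1 := by
  intro h
  have : (1 : ZMod 11) = 0 := congrArg (fun v : V0 => v.toAdd.1) h
  exact absurd this (by decide)

/-- conjugate complement -/
def Y1 : Subgroup G := Y0.map (MulAut.conj (SemidirectProduct.inl v0 : G)).toMonoidHom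

lemma Y0_bot : Y0 ⊓ VV = ⊥ := by
  rw [eq_bot_iff]
  rintro _ ⟨⟨q, rfl⟩, h⟩
  have h1 : q = 1 := h
  rw [h1, map_one]; exact Subgroup.one_mem _

lemma Y0_surj (g : G) : ∃ c ∈ Y0, qq c = qq g := ⟨SemidirectProduct.inr (qq g), ⟨_, rfl⟩, rfl⟩

lemma qq_conj (q : Q) : qq (SemidirectProduct.inl v0 * SemidirectProduct.inr q * (SemidirectProduct.inl v0)⁻¹) = q := by
  rw [map_mul, map_mul, map_inv]
  have h1 : qq (SemidirectProduct.inl v0) = 1 := rfl
  have h2 : qq (SemidirectProduct.inr q) = q := rfl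
  rw [h1, h2]; group

lemma Y1_bot : Y1 ⊓ VV = ⊥ := by
  rw [eq_bot_iff]
  rintro _ ⟨⟨_, ⟨q, rfl⟩, rfl⟩, h⟩
  have h1 : qq (SemidirectProduct.inl v0 * SemidirectProduct.inr q * (SemidirectProduct.inl v0)⁻¹) = 1 := h
  rw [qq_conj] at h1
  subst h1
  rw [map_one, map_one]; exact Subgroup.one_mem _

lemma Y1_surj (g : G) : ∃ c ∈ Y1, qq c = qq g :=
  ⟨_, ⟨SemidirectProduct.inr (qq g), ⟨_, rfl⟩, rfl⟩, qq_conj _⟩

lemma Y01 : Y0 ⊓ Y1 = ⊥ := by
  rw [eq_bot_iff]
  rintro _ ⟨⟨p, rfl⟩, ⟨_, ⟨q, rfl⟩, h⟩⟩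
  have h0 : SemidirectProduct.inl v0 * SemidirectProduct.inr q * (SemidirectProduct.inl v0)⁻¹ =
    (SemidirectProduct.inr p : G) := h
  have h1 : q = p := by
    have := congrArg qq h0
    rw [qq_conj] at this
    exact this
  subst h1
  have h2 : (SemidirectProduct.inl v0 : G) = SemidirectProduct.inl (phi q v0) := by
    rw [SemidirectProduct.inl_aut, map_inv]
    have h5 := mul_inv_eq_iff_eq_mul.1 h0
    exact (mul_inv_eq_iff_eq_mul.2 h5.symm).symm
  have h3 := SemidirectProduct.inl_injective h2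
  by_cases hq : q = 1
  · rw [hq, map_one]; exact Subgroup.one_mem _
  · exact absurd (phi_fix q hq v0 h3.symm) v0_ne

lemma Phi_bot (X : Subgroup G) (hX : VV ≤ X) (h3 : 3 ≤ Nat.card (X.map qq)) : Phi X = ⊥ := by
  rw [eq_bot_iff, ← Y01]
  have h1 := maxC Y0 X Y0_bot Y0_surj hX h3
  have h2 := maxC Y1 X Y1_bot Y1_surj hX h3
  have h4 := Phi_le_of_max X _ h1.1 h1.2
  have h5 := Phi_le_of_max X _ h2.1 h2.2
  exact le_inf (h4.trans inf_le_right) (h5.trans inf_le_right)


section Vanish

lemma sup_mono' (N : Subgroup G) : ∀ X Y : Subgroup G, X ≤ Y → X ⊔ N ≤ Y ⊔ N :=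
  fun _ _ h => sup_le_sup_right h N

lemma sup_idem' (N : Subgroup G) : ∀ X : Subgroup G, X ⊔ N ⊔ N = X ⊔ N := fun X => by
  rw [sup_assoc, sup_idem]

lemma zp_ne (t : G) (ht : t ≠ 1) : (⊥ : Subgroup G) ⊔ Subgroup.zpowers t ≠ ⊥ := by
  rw [bot_sup_eq, Ne, Subgroup.zpowers_eq_bot]
  exact ht

lemma VV_ne : (⊥ : Subgroup G) ⊔ VV ≠ ⊥ := by
  rw [bot_sup_eq]
  intro h
  have := card_VV
  rw [h, Subgroup.card_bot] at this
  omega

lemma van_disj (X : Subgroup G) (h : X ⊓ VV = ⊥) (h4 : 4 ∣ Nat.card X) (m : ℕ) :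
    Subsingleton (Ext (Mo (cS X)) (Mo (cS (⊥ : Subgroup G))) (m + 1)) := by
  obtain ⟨t, ht1, htX, ht⟩ := lemZ X h h4
  exact step_zero (fun W => W ⊔ Subgroup.zpowers t) (fun W => le_sup_left) (sup_mono' _) (sup_idem' _)
    X ⊥ (sup_eq_left.2 ((Subgroup.zpowers_le).2 htX)) (zp_ne t ht1) m
    (fun W hW hle => absurd hle (ht W hW))

theorem vanish (X : Subgroup G) (n : ℕ) (hn : 4 ≤ n) :
    Subsingleton (Ext (Mo (cS X)) (Mo (cS (Phi X))) n) := by
  by_cases h0 : X ⊓ VV = ⊥
  · have hd := card_dvd_of_disj X h0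
    by_cases h24 : Nat.card X = 24
    · by_cases hP : Phi X = ⊥
      · rw [hP]
        obtain ⟨m, rfl⟩ : ∃ m, n = m + 1 := ⟨n - 1, by omega⟩
        exact van_disj X h0 (by rw [h24]; norm_num) m
      · refine bound rk rk_mono _ _ X ?_
        have h1 : 0 < rk (Phi X) := by
          unfold rk
          rw [ArithmeticFunction.cardFactors_pos_iff_one_lt]
          have h2 : Nat.card (Phi X) ≠ 1 := fun h => hP (Subgroup.eq_bot_of_card_eq _ h)
          have h3 : 0 < Nat.card (Phi X) := Nat.card_pos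
          omega
        have h2 : rk X = 4 := by unfold rk; rw [h24, om_24]
        omega
    · refine bound rk rk_mono _ _ X ?_
      have h2 : rk X ≤ 3 := om_le _ hd h24
      omega
  by_cases hV : VV ≤ X
  · have hinf : X ⊓ VV = VV := inf_eq_right.2 hV
    have hcard := card_split X
    rw [hinf, card_VV] at hcard
    by_cases hb : Nat.card (X.map qq) ≤ 3
    · refine bound rk rk_mono _ _ X ?_
      have h1 : rk X ≤ 3 := by
        unfold rk
        have h3 : 0 < Nat.card (X.map qq) := Nat.card_pos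
        rw [hcard, ArithmeticFunction.cardFactors_mul (by norm_num) h3.ne', om_121]
        have := om_small _ hb
        omega
      omega
    · have hb3 : 3 ≤ Nat.card (X.map qq) := by omega
      rw [Phi_bot X hV hb3]
      obtain ⟨m, rfl⟩ : ∃ m, n = m + 1 := ⟨n - 1, by omega⟩
      refine step_zero (fun W => W ⊔ VV) (fun W => le_sup_left) (sup_mono' _) (sup_idem' _)
        X ⊥ (sup_eq_left.2 hV) VV_ne m (fun W hW hle => ?_)
      have hWq : W.map qq = X.map qq := by
        refine le_antisymm (Subgroup.map_mono hW.le) ?_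
        have h1 : X.map qq ≤ (W ⊔ VV).map qq := Subgroup.map_mono hle
        rw [Subgroup.map_sup] at h1
        have h2 : VV.map qq = ⊥ := by
          rw [Subgroup.map_eq_bot_iff]; exact le_rfl
        rwa [h2, sup_bot_eq] at h1
      have hWV : W ⊓ VV = ⊥ := by
        by_contra hne
        obtain ⟨g, hg, hg1, hg2⟩ := exists_good W (by rw [hWq]; exact hb3)
        have h1 := inv_sub g hg1 hg2 (W ⊓ VV) inf_le_right (fun w hw =>
          ⟨W.mul_mem (W.mul_mem hg hw.1) (W.inv_mem hg), (inferInstance : VV.Normal).conj_mem w hw.2 g⟩) hne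
        have h2 : VV ≤ W := inf_eq_right.1 h1
        have h3 : X ≤ W := hle.trans (sup_le le_rfl h2)
        exact hW.not_ge h3
      by_cases h4 : 4 ∣ Nat.card W
      · obtain ⟨m', rfl⟩ : ∃ m', m = m' + 1 := ⟨m - 1, by omega⟩
        exact van_disj W hWV h4 m'
      · refine bound rk rk_mono _ _ W ?_
        have := om_le2 _ (card_dvd_of_disj W hWV) h4
        have h5 : rk W ≤ 2 := this
        omega
  · refine bound rk rk_mono _ _ X ?_
    have hb : ¬ 3 ≤ Nat.card (X.map qq) := by
      intro hb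
      obtain ⟨g, hg, hg1, hg2⟩ := exists_good X hb
      have h1 := inv_sub g hg1 hg2 (X ⊓ VV) inf_le_right (fun w hw =>
          ⟨X.mul_mem (X.mul_mem hg hw.1) (X.inv_mem hg), (inferInstance : VV.Normal).conj_mem w hw.2 g⟩) h0
      exact hV (inf_eq_right.1 h1)
    have h1 : rk X ≤ 2 := by
      unfold rk
      rw [card_split X, ArithmeticFunction.cardFactors_mul Nat.card_pos.ne' Nat.card_pos.ne']
      have h2 := om_small (Nat.card (X.map qq)) (by omega)
      have hd : Nat.card (X ⊓ VV : Subgroup G) ∣ 11 ^ 2 := by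
        have := Subgroup.card_dvd_of_le (inf_le_right : X ⊓ VV ≤ VV)
        rwa [card_VV] at this
      rw [Nat.dvd_prime_pow (by norm_num)] at hd
      obtain ⟨k, hk, hk2⟩ := hd
      rw [hk2, ArithmeticFunction.cardFactors_apply_prime_pow (by norm_num)]
      have : k ≠ 2 := by
        rintro rfl
        apply hV
        have h5 : X ⊓ VV = VV := Subgroup.eq_of_le_of_card_ge inf_le_right (by rw [hk2, card_VV]; norm_num)
        exact inf_eq_right.1 h5
      omega
    omega

end Vanish

end PartC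

section PartD

/-- elements -/
def eZ : List Q := [a 0, a 6]
/-- elements -/
def eC3 : List Q := [a 0, a 4, a 8]
/-- elements -/
def eC4 : List Q := [a 0, a 6, xa 0, xa 6]
/-- elements -/
def eN4 : List Q := [a 0, a 3, a 6, a 9]
/-- elements -/
def eQ8 : List Q := [a 0, a 3, a 6, a 9, xa 0, xa 3, xa 6, xa 9]

/-- A subset closed under the operations, as a subgroup -/
def mkS (S : List Q) (h1 : (1 : Q) ∈ S) (h2 : ∀ x ∈ S, ∀ y ∈ S, x * y ∈ S)
    (h3 : ∀ x ∈ S, x⁻¹ ∈ S) : Subgroup Q where
  carrier := {x | x ∈ S}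
  one_mem' := h1
  mul_mem' := fun {x y} hx hy => h2 x hx y hy
  inv_mem' := fun {x} hx => h3 x hx

lemma card_mkS (S : List Q) (h1 h2 h3) (hS : S.Nodup) : Nat.card (mkS S h1 h2 h3) = S.length := by
  have h4 : ((mkS S h1 h2 h3 : Subgroup Q) : Set Q) = ((S.toFinset : Finset Q) : Set Q) := by
    ext x; simp [mkS]
  have h5 : Nat.card (mkS S h1 h2 h3) = ((mkS S h1 h2 h3 : Subgroup Q) : Set Q).ncard := rfl
  rw [h5, h4, Set.ncard_coe_finset, List.toFinset_card_of_nodup hS]

/-- order 2 -/
def ZQ : Subgroup Q := mkS eZ (by decide) (by decide) (by decide)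
/-- order 3 -/
def C3Q : Subgroup Q := mkS eC3 (by decide) (by decide) (by decide)
/-- order 4 -/
def C4Q : Subgroup Q := mkS eC4 (by decide) (by decide) (by decide)
/-- order 4 -/
def N4Q : Subgroup Q := mkS eN4 (by decide) (by decide) (by decide)
/-- order 8 -/
def Q8Q : Subgroup Q := mkS eQ8 (by decide) (by decide) (by decide)

lemma cZ : Nat.card ZQ = 2 := card_mkS _ _ _ _ (by decide)
lemma cC3 : Nat.card C3Q = 3 := card_mkS _ _ _ _ (by decide)
lemma cC4 : Nat.card C4Q = 4 := card_mkS _ _ _ _ (by decide)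
lemma cN4 : Nat.card N4Q = 4 := card_mkS _ _ _ _ (by decide)
lemma cQ8 : Nat.card Q8Q = 8 := card_mkS _ _ _ _ (by decide)

lemma le1 : ZQ ≤ C4Q := by
  have : ∀ x ∈ eZ, x ∈ eC4 := by decide
  exact this
lemma le2 : C4Q ≤ Q8Q := by
  have : ∀ x ∈ eC4, x ∈ eQ8 := by decide
  exact this
lemma le3 : N4Q ≤ Q8Q := by
  have : ∀ x ∈ eN4, x ∈ eQ8 := by decide
  exact this
lemma le4 : ZQ ≤ N4Q := by
  have : ∀ x ∈ eZ, x ∈ eN4 := by decide
  exact this

lemma gen1 : ∀ g ∈ Q8Q, ∃ y ∈ C4Q, ∃ c ∈ N4Q, y * c = g := by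
  have : ∀ g ∈ eQ8, ∃ y ∈ eC4, ∃ c ∈ eN4, y * c = g := by decide
  exact this
lemma gen2 : ∀ g : Q, ∃ y ∈ Q8Q, ∃ c ∈ C3Q, y * c = g := by
  have : ∀ g : Q, ∃ y ∈ eQ8, ∃ c ∈ eC3, y * c = g := by decide
  exact this
lemma pow1 : ∀ b ∈ C4Q, b ∉ ZQ → ∀ b' ∈ C4Q, ∃ k : Fin 4, b ^ k.val = b' := by
  have : ∀ b ∈ eC4, b ∉ eZ → ∀ b' ∈ eC4, ∃ k : Fin 4, b ^ k.val = b' := by decide
  exact this
lemma disj1 : ∀ c ∈ C3Q, c ∈ Q8Q → c = 1 := by
  have : ∀ c ∈ eC3, c ∈ eQ8 → c = 1 := by decide
  exact this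
instance : C3Q.Normal := ⟨by
  have : ∀ c ∈ eC3, ∀ g : Q, g * c * g⁻¹ ∈ eC3 := by decide
  exact this⟩


end PartD

section PartE
open scoped Classical

/-- image in `G` of a subgroup of `Q_24` -/
def up (A : Subgroup Q) : Subgroup G := A.map (SemidirectProduct.inr : Q →* G)

lemma card_up (A : Subgroup Q) : Nat.card (up A) = Nat.card A :=
  (Nat.card_congr (Subgroup.equivMapOfInjective A _ SemidirectProduct.inr_injective).toEquiv).symm

lemma up_mono {A B : Subgroup Q} (h : A ≤ B) : up A ≤ up B := Subgroup.map_mono h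

lemma up_top : up ⊤ = Y0 := by
  unfold up Y0; rw [MonoidHom.range_eq_map]

lemma mem_up (A : Subgroup Q) (b : Q) : (SemidirectProduct.inr b : G) ∈ up A ↔ b ∈ A := by
  constructor
  · rintro ⟨c, hc, h⟩
    rw [SemidirectProduct.inr_injective h] at hc; exact hc
  · intro h; exact ⟨b, h, rfl⟩

lemma covP (A B : Subgroup G) (p : ℕ) (hp : p.Prime) (hAB : A ≤ B)
    (hc : Nat.card B = p * Nat.card A) : A < B ∧ ∀ W, A ≤ W → W < B → W = A := by
  have hA : 0 < Nat.card A := Nat.card_pos
  constructor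
  · refine lt_of_le_of_ne hAB fun h => ?_
    rw [h] at hc
    have hB : 0 < Nat.card B := Nat.card_pos
    have := hp.two_le
    nlinarith
  · intro W hAW hWB
    obtain ⟨k, hk⟩ := Subgroup.card_dvd_of_le hAW
    obtain ⟨l, hl⟩ := Subgroup.card_dvd_of_le hWB.le
    have h1 : Nat.card A * (k * l) = Nat.card A * p := by
      rw [← mul_assoc, ← hk, ← hl, hc, mul_comm]
    have h2 : k * l = p := Nat.eq_of_mul_eq_mul_left hA h1
    rcases (Nat.dvd_prime hp).1 ⟨l, h2.symm⟩ with h3 | h3
    · rw [h3, mul_one] at hk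
      exact (Subgroup.eq_of_le_of_card_ge hAW hk.le).symm
    · exfalso
      have hl1 : l = 1 := by
        rw [h3] at h2
        exact Nat.eq_of_mul_eq_mul_left hp.pos (by rw [h2, mul_one])
      rw [hl1, mul_one] at hl
      exact hWB.ne (Subgroup.eq_of_le_of_card_ge hWB.le hl.le)

lemma not_le_card {A B : Subgroup G} (h : Nat.card B < Nat.card A) : ¬ A ≤ B := by
  intro hAB
  have := Nat.le_of_dvd Nat.card_pos (Subgroup.card_dvd_of_le hAB)
  omega

lemma sup_ne {K N : Subgroup G} (h : ¬ N ≤ K) : K ⊔ N ≠ K := fun h' => h (sup_eq_left.1 h')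

lemma non1 : Nontrivial (Ext (Mo (cS (up C4Q))) (Mo (cS (up ZQ))) 1) := by
  have h := covP (up ZQ) (up C4Q) 2 (by norm_num) (up_mono le1) (by rw [card_up, card_up, cZ, cC4])
  exact ext_one _ _ h.1 h.2

lemma nonQ8 : Nontrivial (Ext (Mo (cS (up Q8Q))) (Mo (cS (up ZQ))) 2) := by
  have h := covP (up C4Q) (up Q8Q) 2 (by norm_num) (up_mono le2) (by rw [card_up, card_up, cC4, cQ8])
  refine step_non (fun W => W ⊔ up N4Q) (fun W => le_sup_left) (sup_mono' _) (sup_idem' _)
    (up Q8Q) (up C4Q) (up ZQ) (sup_eq_left.2 (up_mono le3)) (sup_ne (not_le_card ?_)) 0 h.1 h.2 ?_ ?_ non1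
  · rw [card_up, card_up, cZ, cN4]; norm_num
  · rintro _ ⟨g, hg, rfl⟩
    obtain ⟨y, hy, c, hc, rfl⟩ := gen1 g hg
    rw [map_mul]
    exact Subgroup.mul_mem _ (Subgroup.mem_sup_left ((mem_up _ _).2 hy)) (Subgroup.mem_sup_right ((mem_up _ _).2 hc))
  · intro W hW hle
    have h1 : W ≤ up ZQ := by
      intro w hw
      obtain ⟨b, hb, rfl⟩ := hW.le hw
      by_contra hbZ
      rw [mem_up] at hbZ
      apply hW.not_ge
      rintro _ ⟨b', hb', rfl⟩
      obtain ⟨k, hk⟩ := pow1 b hb hbZ b' hb'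
      rw [← hk, map_pow]
      exact W.pow_mem hw _
    have h2 : up Q8Q ≤ up N4Q := hle.trans (sup_le (h1.trans (up_mono le4)) le_rfl)
    exact not_le_card (by rw [card_up, card_up, cQ8, cN4]; norm_num) h2

lemma card_Y0 : Nat.card Y0 = 24 := by
  rw [← up_top, card_up, Subgroup.card_top, Nat.card_eq_fintype_card, QuaternionGroup.card]

lemma nonY0 : Nontrivial (Ext (Mo (cS Y0)) (Mo (cS (up ZQ))) 3) := by
  have h := covP (up Q8Q) Y0 3 (by norm_num) (up_top ▸ up_mono le_top) (by rw [card_Y0, card_up, cQ8])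
  refine step_non (fun W => W ⊔ up C3Q) (fun W => le_sup_left) (sup_mono' _) (sup_idem' _)
    Y0 (up Q8Q) (up ZQ) (sup_eq_left.2 (up_top ▸ up_mono le_top)) (sup_ne (not_le_card ?_)) 1 h.1 h.2 ?_ ?_ nonQ8
  · rw [card_up, card_up, cZ, cC3]; norm_num
  · rintro _ ⟨g, rfl⟩
    obtain ⟨y, hy, c, hc, rfl⟩ := gen2 g
    rw [map_mul]
    exact Subgroup.mul_mem _ (Subgroup.mem_sup_left ((mem_up _ _).2 hy)) (Subgroup.mem_sup_right ((mem_up _ _).2 hc))
  · intro W hW hle
    have hWr : W = up (W.comap SemidirectProduct.inr) := by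
      unfold up
      rw [Subgroup.map_comap_eq, eq_comm, inf_eq_right]
      have hle' : up Q8Q ≤ Y0 := up_top ▸ up_mono le_top
      exact hW.le.trans hle'
    have h1 : W.comap SemidirectProduct.inr ⊔ C3Q = ⊤ := by
      rw [eq_top_iff]
      intro g _
      rw [← mem_up]
      unfold up
      rw [Subgroup.map_sup]
      change _ ∈ up (W.comap SemidirectProduct.inr) ⊔ up C3Q
      rw [← hWr]
      exact hle ⟨g, rfl⟩
    apply hW.not_ge
    rintro _ ⟨y, hy, rfl⟩
    have hy2 : y ∈ W.comap (SemidirectProduct.inr : Q →* G) ⊔ C3Q := by rw [h1]; trivial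
    rw [Subgroup.mem_sup_of_normal_right] at hy2
    obtain ⟨w, hw, c, hc, hwc⟩ := hy2
    have hw' : w ∈ Q8Q := (mem_up _ _).1 (hW.le hw)
    have hc1 : c ∈ Q8Q := by
      have : c = w⁻¹ * y := by rw [← hwc]; group
      rw [this]; exact Q8Q.mul_mem (Q8Q.inv_mem hw') hy
    have hc2 := disj1 c hc hc1
    rw [hc2, mul_one] at hwc
    rw [← hwc]; exact hw

lemma nonG : Nontrivial (Ext (Mo (cS (⊤ : Subgroup G))) (Mo (cS (up ZQ))) 4) := by
  have hqs : Function.Surjective qq := SemidirectProduct.rightHom_surjective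
  have hcard : 3 ≤ Nat.card ((⊤ : Subgroup G).map qq) := by
    rw [← MonoidHom.range_eq_map, MonoidHom.range_eq_top.2 hqs, Subgroup.card_top,
      Nat.card_eq_fintype_card, QuaternionGroup.card]
    norm_num
  have h := maxC Y0 ⊤ Y0_bot Y0_surj le_top hcard
  rw [top_inf_eq] at h
  refine step_non (fun W => W ⊔ VV) (fun W => le_sup_left) (sup_mono' _) (sup_idem' _)
    ⊤ Y0 (up ZQ) (top_sup_eq _) (sup_ne (not_le_card ?_)) 2 h.1 ?_ ?_ ?_ nonY0
  · rw [card_up, cZ, card_VV]; norm_num
  · intro W h1 h2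
    by_contra h3
    exact h2.ne (h.2 W (lt_of_le_of_ne h1 (Ne.symm h3)) le_top)
  · intro g _
    obtain ⟨c, hc, hcg⟩ := Y0_surj g
    have h3 : g * c⁻¹ ∈ VV := by
      change qq (g * c⁻¹) = 1
      rw [map_mul, map_inv, hcg, mul_inv_cancel]
    have h4 : g = (g * c⁻¹) * c := by group
    rw [h4]
    exact Subgroup.mul_mem _ (Subgroup.mem_sup_right h3) (Subgroup.mem_sup_left hc)
  · intro W hW hle
    apply hW.not_ge
    intro y hy
    have hy2 : y ∈ W ⊔ VV := hle trivial
    rw [Subgroup.mem_sup_of_normal_right] at hy2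
    obtain ⟨w, hw, v, hv, hwv⟩ := hy2
    have h1 : v ∈ Y0 ⊓ VV := by
      refine ⟨?_, hv⟩
      have : v = w⁻¹ * y := by rw [← hwv]; group
      rw [this]; exact Y0.mul_mem (Y0.inv_mem (hW.le hw)) hy
    rw [Y0_bot, Subgroup.mem_bot] at h1
    rw [h1, mul_one] at hwv
    rw [← hwv]; exact hw

/-- the global dimension of a ring: the supremum of the projective dimensions of all modules -/
noncomputable def gldim (R : Type) [Ring R] : WithBot ℕ∞ :=
  ⨆ M : ModuleCat.{0} R, projectiveDimension M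

lemma gldim_ge {R : Type} [Ring R] (M N : ModuleCat.{0} R) (n : ℕ) (h : Nontrivial (Ext M N n)) :
    (n : WithBot ℕ∞) ≤ gldim R := by
  refine le_trans ?_ (le_iSup (fun M : ModuleCat.{0} R => projectiveDimension M) M)
  by_contra hcon
  rw [not_le, projectiveDimension_lt_iff] at hcon
  have : Subsingleton (Ext M N n) :=
    subsingleton_of_forall_eq 0 fun x => x.eq_zero_of_hasProjectiveDimensionLT n le_rfl
  exact not_subsingleton _ this

theorem vanishS (X : Subgroup G) (n : ℕ) (hn : 4 ≤ n) : Subsingleton (Ext (S X) (S (Phi X)) n) :=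
  iso_sub _ (isoS X) n (iso_sub_right (isoS (Phi X)) n (vanish X n hn))

theorem nonS : Nontrivial (Ext (S (⊤ : Subgroup G)) (S (up ZQ)) 4) := by
  by_contra hcon
  rw [not_nontrivial_iff_subsingleton] at hcon
  have : Subsingleton (Ext (Mo (cS (⊤ : Subgroup G))) (Mo (cS (up ZQ))) 4) :=
    iso_sub _ (isoS _).symm 4 (iso_sub_right (isoS _).symm 4 hcon)
  have h := nonG
  exact not_subsingleton _ this

lemma card_G : Nat.card G = 2904 := by
  rw [SemidirectProduct.card, Nat.card_eq_fintype_card (α := Q), QuaternionGroup.card]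
  have : Nat.card V0 = 121 := by
    change Nat.card (ZMod 11 × ZMod 11) = 121
    simp
  rw [this]

/-- There is a finite group `G` (of order `2904`) such that, writing `S H` for the simple module of
the incidence algebra `IA (Subgroup G)` over `ℚ` concentrated at the subgroup `H`:
* (orientation check) `Ext^n (S H) (S K) ≠ 0` with `n ≥ 1` only if `K < H`;
* `Ext^n (S H) (S (Phi H)) = 0` for all subgroups `H` and all `n ≥ 4`;
* `Ext^4 (S H) (S K) ≠ 0` for some subgroups `H`, `K`; so the global dimension is at least `4`;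
* hence the global dimension is strictly larger than the supremum of all `n` such that
  `Ext^n (S H) (S (Phi H)) ≠ 0` for some subgroup `H`. -/
theorem result : ∃ (G : Type) (_ : Group G) (_ : Finite G),
    Nat.card G = 2904 ∧
    (∀ (H K : Subgroup G) (n : ℕ), 1 ≤ n → Nontrivial (Ext (S H) (S K) n) → K < H) ∧
    (∀ (H : Subgroup G) (n : ℕ), 4 ≤ n → Subsingleton (Ext (S H) (S (Phi H)) n)) ∧
    (∃ H K : Subgroup G, Nontrivial (Ext (S H) (S K) 4)) ∧
    4 ≤ gldim (IA (Subgroup G)) ∧
    sSup {x : WithBot ℕ∞ | ∃ (n : ℕ) (H : Subgroup G), x = n ∧ Nontrivial (Ext (S H) (S (Phi H)) n)}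
      < gldim (IA (Subgroup G)) := by
  have h4 : 4 ≤ gldim (IA (Subgroup G)) := gldim_ge _ _ 4 nonS
  refine ⟨G, inferInstance, inferInstance, card_G, fun H K n hn h => orient K H n hn h, vanishS,
    ⟨⊤, up ZQ, nonS⟩, h4, ?_⟩
  refine lt_of_le_of_lt (b := ((3 : ℕ) : WithBot ℕ∞)) (sSup_le ?_) (lt_of_lt_of_le ?_ h4)
  · rintro _ ⟨n, H, rfl, hn⟩
    have : ¬ 4 ≤ n := fun h => not_subsingleton _ (vanishS H n h)
    exact_mod_cast (by omega : n ≤ 3)
  · exact_mod_cast (by norm_num : (3:ℕ) < 4)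


end PartE

end Pool.Agent.Results.MP_70614a_al.GlobalDimension
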